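import Pool.Agent.R494.IX.Stm

/-! IX-BIN: a lower bound for a binomial probability near the mean. -/

set_option autoImplicit false

namespace Pool.Agent.R494.IX

open Finset

namespace Bn

/-- the binomial probabilities -/
noncomputable def b (M : ℕ) (p : ℝ) (j : ℕ) : ℝ := (M.choose j : ℝ) * p ^ j * (1 - p) ^ (M - j)

lemma b_nonneg (M : ℕ) (p : ℝ) (hp : 0 < p) (hp1 : p ≤ 1 / 2) (j : ℕ) : 0 ≤ b M p j := by
  have : 0 ≤ 1 - p := by linarith
  unfold b
  positivity

lemma b_rec (M : ℕ) (p : ℝ) (j : ℕ) (hj : j < M) :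
    ((j : ℝ) + 1) * (1 - p) * b M p (j + 1) = ((M : ℝ) - j) * p * b M p j := by
  have h1 : (M.choose (j + 1) : ℝ) * ((j : ℝ) + 1) = (M.choose j : ℝ) * ((M : ℝ) - j) := by
    have := Nat.choose_succ_right_eq M j
    have h2 : ((M.choose (j + 1) * (j + 1) : ℕ) : ℝ) = ((M.choose j * (M - j) : ℕ) : ℝ) := by rw [this]
    rw [Nat.cast_mul, Nat.cast_mul, Nat.cast_sub hj.le] at h2
    push_cast at h2
    exact h2
  have h3 : (1 - p) ^ (M - j) = (1 - p) * (1 - p) ^ (M - (j + 1)) := by
    rw [← pow_succ']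
    congr 1
    omega
  unfold b
  rw [h3, pow_succ]
  linear_combination (p ^ j * p * (1 - p) ^ (M - (j + 1)) * (1 - p)) * h1

lemma b_big (M : ℕ) (p : ℝ) (j : ℕ) (hj : M < j) : b M p j = 0 := by
  unfold b
  rw [Nat.choose_eq_zero_of_lt hj]
  simp

lemma b_sum (M : ℕ) (p : ℝ) : ∑ j ∈ range (M + 1), b M p j = 1 := by
  have h := add_pow p (1 - p) M
  rw [show p + (1 - p) = 1 by ring, one_pow] at h
  rw [h]
  refine Finset.sum_congr rfl fun j _ => ?_
  unfold b
  ring

end Bn

open Bn in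
theorem bin : S_BIN := by
  intro M H p δ hp hp1 hH hHM hMH hδ hbig
  obtain ⟨K, rfl⟩ : ∃ K, H = K + 1 := ⟨H - 1, by omega⟩
  rw [Nat.add_sub_cancel]
  push_cast at hHM hMH hbig
  show 1 / (3 * ((M : ℝ) + 1)) ≤ b M p K
  have hq : 1 / 2 ≤ 1 - p := by linarith
  have hM0 : (0 : ℝ) ≤ M := Nat.cast_nonneg M
  have hKM : K + 1 ≤ M := by
    have : (K : ℝ) + 1 ≤ M := by nlinarith
    exact_mod_cast this
  have hK0 : (0 : ℝ) < (K : ℝ) + 1 := by positivity
  -- (i)
  have h1 : ∀ i, i ≤ K → b M p (K - i) ≤ b M p K := by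
    intro i
    induction i with
    | zero => intro _; rw [Nat.sub_zero]
    | succ i ih =>
      intro hi
      refine le_trans ?_ (ih (by omega))
      set j := K - (i + 1) with hj
      have hj1 : K - i = j + 1 := by omega
      rw [hj1]
      have hjK : (j : ℝ) + 1 ≤ K := by
        have : j + 1 ≤ K := by omega
        exact_mod_cast this
      have hr := b_rec M p j (by omega)
      have hb := b_nonneg M p hp hp1 j
      have hj0 : (0 : ℝ) ≤ j := Nat.cast_nonneg j
      have hc : ((j : ℝ) + 1) * (1 - p) ≤ ((M : ℝ) - j) * p := by nlinarith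
      have hc0 : 0 < ((j : ℝ) + 1) * (1 - p) := by
        apply mul_pos <;> linarith
      have h2 : ((j : ℝ) + 1) * (1 - p) * b M p j ≤ ((j : ℝ) + 1) * (1 - p) * b M p (j + 1) := by
        rw [hr]
        exact mul_le_mul_of_nonneg_right hc hb
      exact le_of_mul_le_mul_left h2 hc0
  set ρ : ℝ := 1 + (2 * δ + 1) / ((K : ℝ) + 1) with hρ
  have hρ1 : 1 ≤ ρ := by
    rw [hρ]
    have : 0 ≤ (2 * δ + 1) / ((K : ℝ) + 1) := by positivity
    linarith
  -- (ii)
  have h2 : ∀ j, K ≤ j → b M p (j + 1) ≤ ρ * b M p j := by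
    intro j hj
    rcases Nat.lt_or_ge j M with hjM | hjM
    · have hr := b_rec M p j hjM
      have hb := b_nonneg M p hp hp1 j
      have hjK : (K : ℝ) ≤ j := by exact_mod_cast hj
      have hc0 : 0 < ((j : ℝ) + 1) * (1 - p) := by
        apply mul_pos <;> linarith
      have h3 : ((K : ℝ) + 1) * ρ = (K : ℝ) + 1 + (2 * δ + 1) := by
        rw [hρ]; field_simp
      have hc : ((M : ℝ) - j) * p ≤ ((j : ℝ) + 1) * (1 - p) * ρ := by
        have h4 : ((K : ℝ) + 1) * (1 - p) * ρ ≤ ((j : ℝ) + 1) * (1 - p) * ρ := by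
          gcongr
        have h5 : ((K : ℝ) + 1) * (1 - p) * ρ = ((K : ℝ) + 1 + (2 * δ + 1)) * (1 - p) := by
          rw [← h3]; ring
        have h6 : ((M : ℝ) - j) * p ≤ ((M : ℝ) - K) * p := by
          apply mul_le_mul_of_nonneg_right _ hp.le
          linarith
        nlinarith
      have h7 : ((j : ℝ) + 1) * (1 - p) * b M p (j + 1) ≤ ((j : ℝ) + 1) * (1 - p) * (ρ * b M p j) := by
        rw [hr, ← mul_assoc]
        exact mul_le_mul_of_nonneg_right hc hb
      exact le_of_mul_le_mul_left h7 hc0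
    · rw [b_big M p (j + 1) (by omega)]
      have := b_nonneg M p hp hp1 j
      positivity
  -- (iii)
  have h3 : ∀ j : ℕ, (K : ℝ) + 1 + δ ≤ j → b M p (j + 1) ≤ b M p j := by
    intro j hj
    rcases Nat.lt_or_ge j M with hjM | hjM
    · have hr := b_rec M p j hjM
      have hb := b_nonneg M p hp hp1 j
      have hj0 : (0 : ℝ) ≤ j := Nat.cast_nonneg j
      have hc0 : 0 < ((j : ℝ) + 1) * (1 - p) := by
        apply mul_pos <;> linarith
      have hc : ((M : ℝ) - j) * p ≤ ((j : ℝ) + 1) * (1 - p) := by nlinarith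
      have h7 : ((j : ℝ) + 1) * (1 - p) * b M p (j + 1) ≤ ((j : ℝ) + 1) * (1 - p) * b M p j := by
        rw [hr]
        exact mul_le_mul_of_nonneg_right hc hb
      exact le_of_mul_le_mul_left h7 hc0
    · rw [b_big M p (j + 1) (by omega)]
      exact b_nonneg M p hp hp1 j
  set N : ℕ := ⌈δ⌉₊ + 1 with hN
  have hNδ : (N : ℝ) ≤ δ + 2 := by
    have := Nat.ceil_lt_add_one hδ
    rw [hN]; push_cast; linarith
  have hNδ' : δ + 1 ≤ (N : ℝ) := by
    have := Nat.le_ceil δ
    rw [hN]; push_cast; linarith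
  have hbK := b_nonneg M p hp hp1 K
  have h4 : ∀ i, b M p (K + i) ≤ ρ ^ i * b M p K := by
    intro i
    induction i with
    | zero => simp
    | succ i ih =>
      have := h2 (K + i) (by omega)
      rw [pow_succ', mul_assoc]
      exact this.trans (mul_le_mul_of_nonneg_left ih (by linarith))
  have h5 : ∀ i, N ≤ i → b M p (K + i) ≤ ρ ^ N * b M p K := by
    intro i hi
    induction i, hi using Nat.le_induction with
    | base => exact h4 N
    | succ i hi ih =>
      refine le_trans (h3 (K + i) ?_) ih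
      have : (N : ℝ) ≤ i := by exact_mod_cast hi
      push_cast
      linarith
  have hρN : ρ ^ N ≤ 3 := by
    have h6 : ρ ≤ Real.exp ((2 * δ + 1) / ((K : ℝ) + 1)) := by
      have := Real.add_one_le_exp ((2 * δ + 1) / ((K : ℝ) + 1))
      rw [hρ]; linarith
    have h7 : ρ ^ N ≤ Real.exp ((2 * δ + 1) / ((K : ℝ) + 1)) ^ N :=
      pow_le_pow_left₀ (by linarith) h6 N
    rw [← Real.exp_nat_mul] at h7
    have h8 : (N : ℝ) * ((2 * δ + 1) / ((K : ℝ) + 1)) ≤ 1 := by
      rw [mul_div_assoc', div_le_one hK0]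
      have : (N : ℝ) * (2 * δ + 1) ≤ (δ + 2) * (2 * δ + 1) :=
        mul_le_mul_of_nonneg_right hNδ (by linarith)
      nlinarith
    have h9 : Real.exp ((N : ℝ) * ((2 * δ + 1) / ((K : ℝ) + 1))) ≤ Real.exp 1 := Real.exp_le_exp.2 h8
    have h10 := Real.exp_one_lt_d9
    linarith
  have hall : ∀ j, b M p j ≤ 3 * b M p K := by
    intro j
    rcases Nat.le_total j K with hj | hj
    · have := h1 (K - j) (by omega)
      rw [Nat.sub_sub_self hj] at this
      linarith
    · obtain ⟨i, rfl⟩ := Nat.exists_eq_add_of_le hj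
      have h6 : b M p (K + i) ≤ ρ ^ N * b M p K := by
        rcases Nat.le_total N i with hi | hi
        · exact h5 i hi
        · refine (h4 i).trans ?_
          exact mul_le_mul_of_nonneg_right (pow_le_pow_right₀ hρ1 hi) hbK
      exact h6.trans (mul_le_mul_of_nonneg_right hρN hbK)
  have hsum := b_sum M p
  have hle : ∑ j ∈ range (M + 1), b M p j ≤ ∑ _j ∈ range (M + 1), 3 * b M p K :=
    Finset.sum_le_sum fun j _ => hall j
  rw [hsum, Finset.sum_const, card_range, nsmul_eq_mul] at hle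
  push_cast at hle
  rw [div_le_iff₀ (by positivity)]
  linarith

end Pool.Agent.R494.IX

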