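import Mathlib
import Pool.Agent.R528.RM.Basic

set_option autoImplicit false
set_option linter.unusedSectionVars false

/-! # The number of members in a window, independent model -/

open MeasureTheory Filter Set
open scoped ENNReal Topology

namespace Pool.Agent.R494.IX

open Pool.Agent.R528.RM

variable {Ω : Type} {m0 : MeasurableSpace Ω} {μ : Measure Ω} [IsProbabilityMeasure μ]
  {ℱ : Filtration ℕ m0} {A : ℕ → Set Ω}

lemma step_in (hA : ∀ n, MeasurableSet[ℱ n] (A n)) (n : ℕ) (r : ℝ) (hr : ∀ᵐ ω ∂μ, dens μ ℱ A n ω = r)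
    {B : Set Ω} (hB : MeasurableSet[ℱ n] B) : μ.real (B ∩ A (n + 1)) = r * μ.real B := by
  rw [← setInt_dens (μ := μ) hA n hB]
  have h1 : ∫ ω in B, dens μ ℱ A n ω ∂μ = ∫ _ω in B, r ∂μ := by
    apply integral_congr_ae
    exact ae_restrict_of_ae hr
  rw [h1, setIntegral_const, smul_eq_mul, mul_comm]

lemma step_out (hA : ∀ n, MeasurableSet[ℱ n] (A n)) (n : ℕ) (r : ℝ) (hr : ∀ᵐ ω ∂μ, dens μ ℱ A n ω = r)
    {B : Set Ω} (hB : MeasurableSet[ℱ n] B) : μ.real (B \ A (n + 1)) = (1 - r) * μ.real B := by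
  have h1 := step_in (μ := μ) (ℱ := ℱ) hA n r hr hB
  have h2 := measureReal_inter_add_sdiff (μ := μ) (s := B) (t := A (n + 1)) (ℱ.le _ _ (hA (n + 1)))
  linarith

open Classical in
/-- exactly `j` members in `(t, t + M]` -/
def PS (A : ℕ → Set Ω) (t M j : ℕ) : Set Ω :=
  {ω | ((Finset.Ioc t (t + M)).filter (fun m => ω ∈ A m)).card = j}

lemma ioc_succ (t M : ℕ) : Finset.Ioc t (t + (M + 1)) = insert (t + M + 1) (Finset.Ioc t (t + M)) := by
  ext a
  simp only [Finset.mem_Ioc, Finset.mem_insert]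
  omega

lemma PS_zero0 (t : ℕ) : PS A t 0 0 = univ := by
  ext ω
  unfold PS
  simp

lemma PS_zero1 (t j : ℕ) : PS A t 0 (j + 1) = ∅ := by
  ext ω
  unfold PS
  simp

lemma PS_succ0 (t M : ℕ) : PS A t (M + 1) 0 = PS A t M 0 \ A (t + M + 1) := by
  classical
  ext ω
  unfold PS
  simp only [Set.mem_sdiff, Set.mem_ofPred_eq]
  rw [ioc_succ, Finset.filter_insert]
  by_cases h : ω ∈ A (t + M + 1)
  · rw [if_pos h, Finset.card_insert_of_notMem (by simp)]
    simp [h]
  · rw [if_neg h]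
    simp [h]

lemma PS_succ (t M j : ℕ) : PS A t (M + 1) (j + 1) = (PS A t M j ∩ A (t + M + 1)) ∪ (PS A t M (j + 1) \ A (t + M + 1)) := by
  classical
  ext ω
  unfold PS
  simp only [Set.mem_sdiff, mem_union, mem_inter_iff, Set.mem_ofPred_eq]
  rw [ioc_succ, Finset.filter_insert]
  by_cases h : ω ∈ A (t + M + 1)
  · rw [if_pos h, Finset.card_insert_of_notMem (by simp)]
    simp [h]
  · rw [if_neg h]
    simp [h]

lemma PS_meas (hA : ∀ n, MeasurableSet[ℱ n] (A n)) (t M : ℕ) : ∀ j, MeasurableSet[ℱ (t + M)] (PS A t M j) := by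
  induction M with
  | zero =>
    intro j
    rcases j with _ | j
    · rw [PS_zero0]; exact @MeasurableSet.univ _ (ℱ (t + 0))
    · rw [PS_zero1]; exact @MeasurableSet.empty _ (ℱ (t + 0))
  | succ M ih =>
    intro j
    have h1 : MeasurableSet[ℱ (t + (M + 1))] (A (t + M + 1)) := hA (t + M + 1)
    have h2 : ∀ j, MeasurableSet[ℱ (t + (M + 1))] (PS A t M j) := fun j => ℱ.mono (by omega) _ (ih j)
    rcases j with _ | j
    · rw [PS_succ0]; exact (h2 0).diff h1
    · rw [PS_succ]; exact ((h2 j).inter h1).union ((h2 (j + 1)).diff h1)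

theorem patt (hA : ∀ n, MeasurableSet[ℱ n] (A n)) (ρ : ℕ → ℝ) (t : ℕ) (p P : ℝ) (hp : 0 ≤ p) (hP : P ≤ 1)
    {E : Set Ω} (hE : MeasurableSet[ℱ t] E) (M : ℕ)
    (hd : ∀ n, t ≤ n → n < t + M → (∀ᵐ ω ∂μ, dens μ ℱ A n ω = ρ (n + 1)) ∧ p ≤ ρ (n + 1) ∧ ρ (n + 1) ≤ P) :
    ∀ j, μ.real E * ((M.choose j : ℝ) * p ^ j * (1 - P) ^ (M - j)) ≤ μ.real (E ∩ PS A t M j) := by
  induction M with
  | zero =>
    intro j
    rcases j with _ | j
    · rw [PS_zero0]; simp
    · rw [PS_zero1]; simp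
  | succ M ih =>
    have ih' := ih (fun n h1 h2 => hd n h1 (by omega))
    obtain ⟨d1, d2, d3⟩ := hd (t + M) (by omega) (by omega)
    set r := ρ (t + M + 1) with hr
    have hr0 : 0 ≤ 1 - P := by linarith
    have hB : ∀ j, MeasurableSet[ℱ (t + M)] (E ∩ PS A t M j) := fun j =>
      (ℱ.mono (by omega) _ hE).inter (PS_meas hA t M j)
    have hin : ∀ j, μ.real ((E ∩ PS A t M j) ∩ A (t + M + 1)) = r * μ.real (E ∩ PS A t M j) := fun j =>
      step_in (μ := μ) (ℱ := ℱ) hA (t + M) r d1 (hB j)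
    have hout : ∀ j, μ.real ((E ∩ PS A t M j) \ A (t + M + 1)) = (1 - r) * μ.real (E ∩ PS A t M j) := fun j =>
      step_out (μ := μ) (ℱ := ℱ) hA (t + M) r d1 (hB j)
    intro j
    rcases j with _ | j
    · have e1 : E ∩ PS A t (M + 1) 0 = (E ∩ PS A t M 0) \ A (t + M + 1) := by
        rw [PS_succ0, inter_sdiff_assoc]
      rw [e1, hout 0]
      have h1 := ih' 0
      have h2 : (0 : ℝ) ≤ μ.real E * ((M.choose 0 : ℝ) * p ^ 0 * (1 - P) ^ (M - 0)) := by positivity
      calc μ.real E * (((M + 1).choose 0 : ℝ) * p ^ 0 * (1 - P) ^ (M + 1 - 0))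
          = (1 - P) * (μ.real E * ((M.choose 0 : ℝ) * p ^ 0 * (1 - P) ^ (M - 0))) := by
            simp only [Nat.choose_zero_right, Nat.cast_one, pow_zero, Nat.sub_zero, pow_succ]
            ring
        _ ≤ (1 - r) * μ.real (E ∩ PS A t M 0) := mul_le_mul (by linarith) h1 h2 (by linarith)
    · have e1 : E ∩ PS A t (M + 1) (j + 1) = ((E ∩ PS A t M j) ∩ A (t + M + 1)) ∪ ((E ∩ PS A t M (j + 1)) \ A (t + M + 1)) := by
        rw [PS_succ, inter_union_distrib_left, inter_assoc, inter_sdiff_assoc]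
      have hdisj : Disjoint ((E ∩ PS A t M j) ∩ A (t + M + 1)) ((E ∩ PS A t M (j + 1)) \ A (t + M + 1)) := by
        rw [Set.disjoint_left]
        rintro ω ⟨-, h1⟩ ⟨-, h2⟩
        exact h2 h1
      have hm : MeasurableSet ((E ∩ PS A t M (j + 1)) \ A (t + M + 1)) :=
        (ℱ.le _ _ (hB (j + 1))).diff (ℱ.le _ _ (hA (t + M + 1)))
      rw [e1, measureReal_union hdisj hm, hin j, hout (j + 1)]
      have h1 := ih' j
      have h2 := ih' (j + 1)
      have g1 : (0 : ℝ) ≤ μ.real E * ((M.choose j : ℝ) * p ^ j * (1 - P) ^ (M - j)) := by positivity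
      have g2 : (0 : ℝ) ≤ μ.real E * ((M.choose (j + 1) : ℝ) * p ^ (j + 1) * (1 - P) ^ (M - (j + 1))) := by positivity
      have k1 : p * (μ.real E * ((M.choose j : ℝ) * p ^ j * (1 - P) ^ (M - j))) ≤ r * μ.real (E ∩ PS A t M j) :=
        mul_le_mul d2 h1 g1 (by linarith)
      have k2 : (1 - P) * (μ.real E * ((M.choose (j + 1) : ℝ) * p ^ (j + 1) * (1 - P) ^ (M - (j + 1)))) ≤
          (1 - r) * μ.real (E ∩ PS A t M (j + 1)) :=
        mul_le_mul (by linarith) h2 g2 (by linarith)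
      have e3 : M + 1 - (j + 1) = M - j := by omega
      rw [Nat.choose_succ_succ, e3]
      push_cast
      have e4 : (M.choose (j + 1) : ℝ) * (1 - P) ^ (M - j) = (M.choose (j + 1) : ℝ) * ((1 - P) * (1 - P) ^ (M - (j + 1))) := by
        by_cases hj : j + 1 ≤ M
        · have : M - j = (M - (j + 1)) + 1 := by omega
          rw [this, pow_succ]
          ring
        · rw [Nat.choose_eq_zero_of_lt (by omega)]
          simp
      calc μ.real E * (((M.choose j : ℝ) + (M.choose (j + 1) : ℝ)) * p ^ (j + 1) * (1 - P) ^ (M - j))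
          = p * (μ.real E * ((M.choose j : ℝ) * p ^ j * (1 - P) ^ (M - j))) +
            μ.real E * p ^ (j + 1) * ((M.choose (j + 1) : ℝ) * (1 - P) ^ (M - j)) := by ring
        _ = p * (μ.real E * ((M.choose j : ℝ) * p ^ j * (1 - P) ^ (M - j))) +
            (1 - P) * (μ.real E * ((M.choose (j + 1) : ℝ) * p ^ (j + 1) * (1 - P) ^ (M - (j + 1)))) := by
            rw [e4]; ring
        _ ≤ _ := add_le_add k1 k2

end Pool.Agent.R494.IX
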