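import Mathlib

/-! Statements of the pieces of project IX (MP_61a569_nt in Cramér's model). -/

set_option autoImplicit false

open Filter

namespace Pool.Agent.R494.IX

/-- many well spaced values `q = φ(k) + φ(n - k) / 2 + 1`, for every large `n` -/
def S_NT : Prop := ∀ C E : ℕ, ∀ᶠ n : ℕ in atTop, ∃ Φ : Finset ℕ, Real.log n ^ C ≤ (Φ.card : ℝ) ∧
  (∀ q ∈ Φ, n ≤ 2 * q ∧ q ≤ n + 1 ∧ ∃ k : ℕ, 0 < k ∧ k < n - 2 ∧ q = Nat.totient k + Nat.totient (n - k) / 2 + 1) ∧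
  (∀ q ∈ Φ, ∀ q' ∈ Φ, q < q' → q + Nat.log 2 n ^ E ≤ q')

/-- the number of `m ≤ n` all of whose prime factors are `≤ (log n) ^ C` is small -/
def S_SM : Prop := ∀ C D : ℕ, ∀ᶠ n : ℕ in atTop,
  (({m : ℕ | 1 ≤ m ∧ m ≤ n ∧ ∀ p : ℕ, p.Prime → p ∣ m → (p : ℝ) ≤ Real.log n ^ C}).ncard : ℝ) ≤
    n / Real.log n ^ D

/-- a binomial probability near the mean -/
def S_BIN : Prop := ∀ (M H : ℕ) (p δ : ℝ), 0 < p → p ≤ 1 / 2 → 1 ≤ H → (H : ℝ) ≤ M * p → M * p ≤ H + δ →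
  0 ≤ δ → 4 * (δ + 2) ^ 2 ≤ H →
  1 / (3 * ((M : ℝ) + 1)) ≤ (M.choose (H - 1) : ℝ) * p ^ (H - 1) * (1 - p) ^ (M - (H - 1))

end Pool.Agent.R494.IX
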