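import Mathlib
import Pool.Agent.R494.IX.Pat
import Pool.Agent.R494.IX.Stm

set_option autoImplicit false
set_option linter.unusedSectionVars false

/-! # One trial -/

open MeasureTheory Filter Set
open scoped ENNReal Topology

namespace Pool.Agent.R494.IX

open Pool.Agent.R528.RM

variable {Ω : Type} {m0 : MeasurableSpace Ω} {μ : Measure Ω} [IsProbabilityMeasure μ]
  {ℱ : Filtration ℕ m0} {A : ℕ → Set Ω}

open Classical in
/-- the number of members `≤ t` -/
noncomputable def CC (A : ℕ → Set Ω) (t : ℕ) (ω : Ω) : ℕ := ((Finset.range (t + 1)).filter (fun m => ω ∈ A m)).card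

lemma CC_succ (t : ℕ) (ω : Ω) : (ω ∈ A (t + 1) → CC A (t + 1) ω = CC A t ω + 1) ∧ (ω ∉ A (t + 1) → CC A (t + 1) ω = CC A t ω) := by
  classical
  unfold CC
  rw [Finset.range_add_one (n := t + 1), Finset.filter_insert]
  constructor
  · intro h
    rw [if_pos h, Finset.card_insert_of_notMem (by simp)]
  · intro h
    rw [if_neg h]

lemma CC_mono {t t' : ℕ} (h : t ≤ t') (ω : Ω) : CC A t ω ≤ CC A t' ω := by
  classical
  unfold CC
  apply Finset.card_le_card
  apply Finset.filter_subset_filter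
  intro a ha
  rw [Finset.mem_range] at ha ⊢
  omega

/-- the `j`-th member is `t` -/
def RR (A : ℕ → Set Ω) (j t : ℕ) : Set Ω := {ω | ω ∈ A t ∧ CC A t ω = j}

lemma CC_lt {t t' : ℕ} {ω : Ω} (h : t < t') (h' : ω ∈ A t') : CC A t ω < CC A t' ω := by
  obtain ⟨s, rfl⟩ : ∃ s, t' = s + 1 := ⟨t' - 1, by omega⟩
  have h1 := CC_mono (A := A) (show t ≤ s by omega) ω
  have h2 := (CC_succ (A := A) s ω).1 h'
  omega

lemma RR_unique {j t t' : ℕ} {ω : Ω} (h : ω ∈ RR A j t) (h' : ω ∈ RR A j t') : t = t' := by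
  obtain ⟨a1, a2⟩ := h
  obtain ⟨b1, b2⟩ := h'
  rcases lt_trichotomy t t' with h1 | h1 | h1
  · have := CC_lt h1 b1
    omega
  · exact h1
  · have := CC_lt h1 a1
    omega

lemma RR_lt {j j' t t' : ℕ} {ω : Ω} (h : ω ∈ RR A j t) (h' : ω ∈ RR A j' t') (hj : j < j') : t < t' := by
  obtain ⟨a1, a2⟩ := h
  obtain ⟨b1, b2⟩ := h'
  by_contra hcon
  have := CC_mono (A := A) (not_lt.1 hcon) ω
  omega

lemma CC_meas (hA : ∀ n, MeasurableSet[ℱ n] (A n)) (t : ℕ) : ∀ j, MeasurableSet[ℱ t] {ω | CC A t ω = j} := by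
  induction t with
  | zero =>
    intro j
    have h0 : ∀ ω, (ω ∈ A 0 → CC A 0 ω = 1) ∧ (ω ∉ A 0 → CC A 0 ω = 0) := by
      classical
      intro ω
      unfold CC
      rw [Finset.range_one, Finset.filter_singleton]
      constructor
      · intro h; rw [if_pos h]; simp
      · intro h; rw [if_neg h]; simp
    have h1 : {ω | CC A 0 ω = j} = (if j = 1 then A 0 else ∅) ∪ (if j = 0 then (A 0)ᶜ else ∅) := by
      ext ω
      simp only [Set.mem_ofPred_eq, mem_union]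
      by_cases h : ω ∈ A 0
      · rw [(h0 ω).1 h]
        by_cases hj : j = 1
        · subst hj; simp [h]
        · have hj' : ¬ 1 = j := fun h => hj h.symm
          by_cases hj0 : j = 0
          · subst hj0; simp [h]
          · simp [hj, hj', hj0]
      · rw [(h0 ω).2 h]
        by_cases hj : j = 0
        · subst hj; simp [h]
        · have hj' : ¬ 0 = j := fun h => hj h.symm
          by_cases hj1 : j = 1
          · subst hj1; simp [h]
          · simp [hj, hj', hj1]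
    rw [h1]
    apply MeasurableSet.union
    · split_ifs
      · exact hA 0
      · exact @MeasurableSet.empty _ (ℱ 0)
    · split_ifs
      · exact (hA 0).compl
      · exact @MeasurableSet.empty _ (ℱ 0)
  | succ t ih =>
    intro j
    have ih' : ∀ j, MeasurableSet[ℱ (t + 1)] {ω | CC A t ω = j} := fun j => ℱ.mono (Nat.le_succ t) _ (ih j)
    have h1 : {ω | CC A (t + 1) ω = j} = ({ω | CC A t ω + 1 = j} ∩ A (t + 1)) ∪ ({ω | CC A t ω = j} \ A (t + 1)) := by
      ext ω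
      simp only [Set.mem_ofPred_eq, mem_union, mem_inter_iff, Set.mem_sdiff]
      have h2 := CC_succ (A := A) t ω
      by_cases h : ω ∈ A (t + 1)
      · rw [h2.1 h]; simp [h]
      · rw [h2.2 h]; simp [h]
    rw [h1]
    apply MeasurableSet.union
    · apply MeasurableSet.inter _ (hA (t + 1))
      rcases j with _ | j
      · have : {ω | CC A t ω + 1 = 0} = ∅ := by ext ω; simp
        rw [this]
        exact @MeasurableSet.empty _ (ℱ (t + 1))
      · have : {ω | CC A t ω + 1 = j + 1} = {ω | CC A t ω = j} := by ext ω; simp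
        rw [this]
        exact ih' j
    · exact (ih' j).diff (hA (t + 1))

lemma RR_meas (hA : ∀ n, MeasurableSet[ℱ n] (A n)) (j t : ℕ) : MeasurableSet[ℱ t] (RR A j t) :=
  (hA t).inter (CC_meas hA t j)

/-- `s_q - q - 1` and `s_q - q + 1` are members, with `s_q ≤ T` -/
def SucT (A : ℕ → Set Ω) (q T : ℕ) : Set Ω := {ω | ∃ s, s ≤ T ∧ ω ∈ RR A q s ∧ q + 1 ≤ s ∧ ω ∈ A (s - q - 1) ∧ ω ∈ A (s - q + 1)}

/-- `s_q - q - 1` and `s_q - q + 1` are members -/
def Suc (A : ℕ → Set Ω) (q : ℕ) : Set Ω := {ω | ∃ s, ω ∈ RR A q s ∧ q + 1 ≤ s ∧ ω ∈ A (s - q - 1) ∧ ω ∈ A (s - q + 1)}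

lemma SucT_meas (hA : ∀ n, MeasurableSet[ℱ n] (A n)) (q T : ℕ) (hq : 1 ≤ q) : MeasurableSet[ℱ T] (SucT A q T) := by
  have h1 : SucT A q T = ⋃ s ∈ Finset.Icc (q + 1) T, (RR A q s ∩ A (s - q - 1) ∩ A (s - q + 1)) := by
    ext ω
    unfold SucT
    simp only [Set.mem_ofPred_eq, mem_iUnion, mem_inter_iff, Finset.mem_Icc, exists_prop]
    constructor
    · rintro ⟨s, a1, a2, a3, a4, a5⟩
      exact ⟨s, ⟨a3, a1⟩, ⟨a2, a4⟩, a5⟩
    · rintro ⟨s, ⟨a3, a1⟩, ⟨a2, a4⟩, a5⟩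
      exact ⟨s, a1, a2, a3, a4, a5⟩
  rw [h1]
  apply Finset.measurableSet_biUnion
  intro s hs
  rw [Finset.mem_Icc] at hs
  exact ((ℱ.mono hs.2 _ (RR_meas hA q s)).inter (ℱ.mono (by omega) _ (hA (s - q - 1)))).inter
    (ℱ.mono (by omega) _ (hA (s - q + 1)))

/-- a bounded number of further members -/
lemma CC_PS {t M j : ℕ} {ω : Ω} (h : ω ∈ PS A t M j) : CC A (t + M) ω = CC A t ω + j := by
  classical
  unfold PS at h
  unfold CC
  have h1 : Finset.range (t + M + 1) = Finset.range (t + 1) ∪ Finset.Ioc t (t + M) := by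
    ext a
    simp only [Finset.mem_range, Finset.mem_union, Finset.mem_Ioc]
    omega
  rw [h1, Finset.filter_union, Finset.card_union_of_disjoint]
  · have : ((Finset.Ioc t (t + M)).filter (fun m => ω ∈ A m)).card = j := h
    rw [this]
  · apply Finset.disjoint_filter_filter
    rw [Finset.disjoint_left]
    intro a ha hb
    rw [Finset.mem_range] at ha
    rw [Finset.mem_Ioc] at hb
    omega

/-- the profile of Cramér's model -/
noncomputable def rC (m : ℕ) : ℝ := 1 / Real.log m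

/-- one trial -/
lemma trial (hA : ∀ n, MeasurableSet[ℱ n] (A n))
    (hd : ∀ n, 2 ≤ n → ∀ᵐ ω ∂μ, dens μ ℱ A n ω = rC (n + 1))
    (q H t v M : ℕ) (hH : 1 ≤ H) (hHq : H ≤ q) (ht : 3 ≤ t) (hM : v + q = t + M) {E : Set Ω} (hE : MeasurableSet[ℱ t] E)
    (hE1 : E ⊆ RR A (q - H) t) (hE2 : E ⊆ A v) (hE3 : E ⊆ A (v + 2)) (p P : ℝ) (hp : 0 ≤ p)
    (hpP : ∀ m : ℕ, t + 1 ≤ m → m ≤ t + M + 1 → p ≤ rC m ∧ rC m ≤ P) (hP : P ≤ 1) :
    μ.real E * ((M.choose (H - 1) : ℝ) * p ^ (H - 1) * (1 - P) ^ (M - (H - 1)) * p) ≤ μ.real (E ∩ Suc A q) := by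
  have h1 := patt (μ := μ) (ℱ := ℱ) hA rC t p P hp hP hE M
    (fun n g1 g2 => ⟨hd n (by omega), (hpP (n + 1) (by omega) (by omega)).1, (hpP (n + 1) (by omega) (by omega)).2⟩) (H - 1)
  have h2 : μ.real ((E ∩ PS A t M (H - 1)) ∩ A (t + M + 1)) = rC (t + M + 1) * μ.real (E ∩ PS A t M (H - 1)) :=
    step_in (μ := μ) (ℱ := ℱ) hA (t + M) _ (hd (t + M) (by omega))
      ((ℱ.mono (by omega) _ hE).inter (PS_meas hA t M (H - 1)))
  have h3 : (E ∩ PS A t M (H - 1)) ∩ A (t + M + 1) ⊆ E ∩ Suc A q := by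
    rintro ω ⟨⟨g1, g2⟩, g3⟩
    refine ⟨g1, t + M + 1, ⟨g3, ?_⟩, by omega, ?_, ?_⟩
    · have g4 := CC_PS g2
      have g5 := (CC_succ (A := A) (t + M) ω).1 g3
      have g6 := (hE1 g1).2
      omega
    · have : t + M + 1 - q - 1 = v := by omega
      rw [this]
      exact hE2 g1
    · have : t + M + 1 - q + 1 = v + 2 := by omega
      rw [this]
      exact hE3 g1
  have h4 := measureReal_mono (μ := μ) h3 (measure_ne_top _ _)
  have h5 := (hpP (t + M + 1) (by omega) le_rfl).1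
  have h6 : 0 ≤ μ.real E * ((M.choose (H - 1) : ℝ) * p ^ (H - 1) * (1 - P) ^ (M - (H - 1))) := by
    have : 0 ≤ 1 - P := by linarith
    positivity
  calc μ.real E * ((M.choose (H - 1) : ℝ) * p ^ (H - 1) * (1 - P) ^ (M - (H - 1)) * p)
      = p * (μ.real E * ((M.choose (H - 1) : ℝ) * p ^ (H - 1) * (1 - P) ^ (M - (H - 1)))) := by ring
    _ ≤ rC (t + M + 1) * μ.real (E ∩ PS A t M (H - 1)) := mul_le_mul h5 h1 h6 (hp.trans h5)
    _ = _ := h2.symm
    _ ≤ _ := h4

end Pool.Agent.R494.IX
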