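import Mathlib
import Pool.Agent.R494.IX.Tri

set_option autoImplicit false

/-! # The parameters -/

open Filter Asymptotics

namespace Pool.Agent.R494.IX

/-- the parameters -/
def LL (n : ℕ) : ℕ := Nat.log 2 n
def HH (n : ℕ) : ℕ := LL n ^ 20
def WW (n : ℕ) : ℕ := LL n ^ 9
def XX (n : ℕ) : ℕ := LL n ^ 23
noncomputable def MM (n t : ℕ) : ℕ := ⌈(HH n : ℝ) * Real.log ((t : ℝ) + XX n)⌉₊

lemma LL_tendsto : Tendsto LL atTop atTop := by
  unfold LL
  rw [tendsto_atTop_atTop]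
  intro b
  refine ⟨2 ^ b, fun a ha => ?_⟩
  exact Nat.le_log_of_pow_le (by norm_num) ha

lemma LL_le (n : ℕ) : (LL n : ℝ) ≤ 2 * Real.log n := by
  have g1 : (Nat.log 2 n : ℝ) ≤ Real.logb 2 n := by
    have := Real.natLog_le_logb n 2
    exact_mod_cast this
  have h2 : (1 : ℝ) / 2 ≤ Real.log 2 := by
    have := Real.log_two_gt_d9
    linarith
  have g2 : Real.logb 2 n ≤ 2 * Real.log n := by
    unfold Real.logb
    rw [div_le_iff₀ (by linarith)]
    have := Real.log_natCast_nonneg n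
    nlinarith
  exact g1.trans g2

lemma log_le_LL (n : ℕ) (hn : 1 ≤ n) : Real.log n ≤ LL n + 1 := by
  have h1 : n < 2 ^ (LL n + 1) := Nat.lt_pow_succ_log_self (by norm_num) n
  have h2 : (n : ℝ) ≤ (2 : ℝ) ^ (LL n + 1) := by exact_mod_cast h1.le
  have hn0 : (0 : ℝ) < n := by exact_mod_cast hn
  calc Real.log n ≤ Real.log ((2 : ℝ) ^ (LL n + 1)) := Real.log_le_log hn0 h2
    _ = (LL n + 1) * Real.log 2 := by rw [Real.log_pow]; push_cast; ring
    _ ≤ (LL n + 1) * 1 := by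
        apply mul_le_mul_of_nonneg_left _ (by positivity)
        have := Real.log_two_lt_d9
        linarith
    _ = _ := mul_one _

lemma ev_poly (k : ℕ) (c : ℝ) (hc : 0 < c) : ∀ᶠ n : ℕ in atTop, c * (LL n : ℝ) ^ k ≤ n := by
  have h1 := (Real.isLittleO_pow_log_id_atTop (n := k)).bound (show (0 : ℝ) < 1 / (c * 2 ^ k) by positivity)
  filter_upwards [tendsto_natCast_atTop_atTop.eventually h1, eventually_ge_atTop 1] with n h2 h3
  have hl : 0 ≤ Real.log (n : ℝ) := Real.log_natCast_nonneg n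
  rw [Real.norm_eq_abs, Real.norm_eq_abs, abs_of_nonneg (by positivity), id, abs_of_nonneg (by positivity)] at h2
  calc c * (LL n : ℝ) ^ k ≤ c * (2 * Real.log n) ^ k := by
        have := LL_le n
        gcongr
    _ = (c * 2 ^ k) * Real.log n ^ k := by rw [mul_pow]; ring
    _ ≤ (c * 2 ^ k) * (1 / (c * 2 ^ k) * n) := by gcongr
    _ = n := by field_simp

theorem par (hB : S_BIN) : ∀ᶠ n : ℕ in atTop, ∀ t M : ℕ, n ≤ t → t ≤ n ^ 2 → MM n t ≤ M → M ≤ MM n t + WW n →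
    M + 1 ≤ XX n ∧
    (∀ m : ℕ, t + 1 ≤ m → m ≤ t + M + 1 → 1 / Real.log ((t : ℝ) + XX n) ≤ rC m ∧ rC m ≤ 1 / Real.log t) ∧
    1 / Real.log (t : ℝ) ≤ 1 ∧ 0 ≤ 1 / Real.log ((t : ℝ) + XX n) ∧
    1 / (LL n : ℝ) ^ 25 ≤ (M.choose (HH n - 1) : ℝ) * (1 / Real.log ((t : ℝ) + XX n)) ^ (HH n - 1) *
      (1 - 1 / Real.log (t : ℝ)) ^ (M - (HH n - 1)) * (1 / Real.log ((t : ℝ) + XX n)) := by
  filter_upwards [LL_tendsto.eventually_ge_atTop 20, ev_poly 46 4 (by norm_num), ev_poly 23 1 (by norm_num),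
    eventually_ge_atTop 16] with n hL h46 h23 hn t M ht1 ht2 hM1 hM2
  set L := LL n with hLdef
  have hLr : (20 : ℝ) ≤ L := by exact_mod_cast hL
  have hH : (HH n : ℝ) = (L : ℝ) ^ 20 := by unfold HH; push_cast; rfl
  have hW : (WW n : ℝ) = (L : ℝ) ^ 9 := by unfold WW; push_cast; rfl
  have hX : (XX n : ℝ) = (L : ℝ) ^ 23 := by unfold XX; push_cast; rfl
  have hn16 : (16 : ℝ) ≤ n := by exact_mod_cast hn
  have ht1' : (n : ℝ) ≤ t := by exact_mod_cast ht1
  have ht2' : (t : ℝ) ≤ (n : ℝ) ^ 2 := by exact_mod_cast ht2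
  have ht0 : (0 : ℝ) < t := by linarith
  set Y : ℝ := Real.log ((t : ℝ) + XX n) with hY
  set Z : ℝ := Real.log (t : ℝ) with hZ
  have hX0 : (0 : ℝ) ≤ XX n := by positivity
  have hXn : (XX n : ℝ) ≤ n := by rw [hX]; linarith
  -- logs
  have hZ2 : 2 ≤ Z := by
    rw [hZ, Real.le_log_iff_exp_le ht0]
    have h1 : Real.exp 2 = Real.exp 1 * Real.exp 1 := by rw [← Real.exp_add]; norm_num
    have h2 := Real.exp_one_lt_d9
    have h3 := Real.exp_pos 1
    rw [h1]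
    nlinarith
  have hYZ : Z ≤ Y := Real.log_le_log ht0 (by linarith)
  have hY2 : 2 ≤ Y := hZ2.trans hYZ
  have hY3 : Y ≤ 3 * L := by
    have h1 : (t : ℝ) + XX n ≤ 2 * (n : ℝ) ^ 2 := by nlinarith
    have h2 : Y ≤ Real.log (2 * (n : ℝ) ^ 2) := Real.log_le_log (by linarith) h1
    rw [Real.log_mul (by norm_num) (by positivity), Real.log_pow] at h2
    push_cast at h2
    have h3 := log_le_LL n (by omega)
    have h4 := Real.log_two_lt_d9
    rw [← hLdef] at h3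
    linarith
  have hYZd : Y - Z ≤ XX n / n := by
    have h1 : Y - Z = Real.log (((t : ℝ) + XX n) / t) := by
      rw [Real.log_div (by positivity) ht0.ne']
    rw [h1]
    have h2 := Real.log_le_sub_one_of_pos (show (0 : ℝ) < ((t : ℝ) + XX n) / t by positivity)
    refine h2.trans ?_
    have h3 : ((t : ℝ) + XX n) / t - 1 = XX n / t := by field_simp; ring
    rw [h3]
    gcongr
  -- M
  have hMM : (MM n t : ℝ) ≤ HH n * Y + 1 := by
    unfold MM
    exact (Nat.ceil_lt_add_one (by positivity)).le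
  have hMM' : (HH n : ℝ) * Y ≤ MM n t := Nat.le_ceil _
  have hM1' : (MM n t : ℝ) ≤ M := by exact_mod_cast hM1
  have hM2' : (M : ℝ) ≤ MM n t + WW n := by exact_mod_cast hM2
  have hL9 : (1 : ℝ) ≤ (L : ℝ) ^ 9 := one_le_pow₀ (by linarith)
  have hL12 : (1 : ℝ) ≤ (L : ℝ) ^ 12 := one_le_pow₀ (by linarith)
  have hMX : (M : ℝ) + 1 ≤ XX n := by
    have h1 : (HH n : ℝ) * Y ≤ L ^ 20 * (3 * L) := by rw [hH]; gcongr
    have h2 : (L : ℝ) ^ 9 ≤ L ^ 21 := pow_le_pow_right₀ (by linarith) (by norm_num)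
    have h3 : (1 : ℝ) ≤ L ^ 21 := one_le_pow₀ (by linarith)
    have h4 : (L : ℝ) ^ 23 = L ^ 21 * L ^ 2 := by ring
    have h5 : (400 : ℝ) ≤ L ^ 2 := by nlinarith
    have h6 : (L : ℝ) ^ 21 * 400 ≤ L ^ 21 * L ^ 2 := mul_le_mul_of_nonneg_left h5 (by positivity)
    have h7 : (L : ℝ) ^ 20 * (3 * L) = 3 * L ^ 21 := by ring
    rw [hX, h4]
    rw [hW] at hM2'
    rw [h7] at h1
    linarith
  have hMXn : M + 1 ≤ XX n := by exact_mod_cast hMX
  have hpp : ∀ m : ℕ, t + 1 ≤ m → m ≤ t + M + 1 → 1 / Y ≤ rC m ∧ rC m ≤ 1 / Z := by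
    intro m g1 g2
    have g1' : (t : ℝ) ≤ m := by exact_mod_cast (by omega : t ≤ m)
    have g2' : (m : ℝ) ≤ t + XX n := by exact_mod_cast (by omega : m ≤ t + XX n)
    have g3 : Z ≤ Real.log m := Real.log_le_log ht0 g1'
    have g4 : Real.log m ≤ Y := Real.log_le_log (by linarith) g2'
    unfold rC
    constructor
    · exact one_div_le_one_div_of_le (by linarith) g4
    · exact one_div_le_one_div_of_le (by linarith) g3
  refine ⟨hMXn, hpp, ?_, by positivity, ?_⟩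
  · rw [div_le_one (by linarith)]; linarith
  set p : ℝ := 1 / Y with hp
  set P : ℝ := 1 / Z with hP
  have hp0 : 0 < p := by positivity
  have hp2 : p ≤ 1 / 2 := one_div_le_one_div_of_le (by norm_num) hY2
  have hYp : Y * p = 1 := by rw [hp]; field_simp
  have hPp : P - p ≤ XX n / n := by
    have h1 : P - p = (Y - Z) / (Z * Y) := by rw [hp, hP]; field_simp
    rw [h1, div_le_iff₀ (by positivity)]
    have h2 : 1 ≤ Z * Y := by nlinarith
    have h3 : 0 ≤ (XX n : ℝ) / n := by positivity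
    nlinarith
  have hPp0 : 0 ≤ P - p := sub_nonneg.2 (one_div_le_one_div_of_le (by linarith) hYZ)
  have hH1 : 1 ≤ HH n := Nat.one_le_pow _ _ (by omega)
  have hbin := hB M (HH n) p (1 + WW n) hp0 hp2 hH1 (by
    calc (HH n : ℝ) = (HH n * Y) * p := by rw [mul_assoc, hYp, mul_one]
      _ ≤ M * p := by gcongr; linarith) (by
    calc (M : ℝ) * p ≤ (HH n * Y + 1 + WW n) * p := by gcongr; linarith
      _ = HH n * (Y * p) + (1 + WW n) * p := by ring
      _ ≤ HH n * 1 + (1 + WW n) * 1 := by rw [hYp]; gcongr; linarith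
      _ = _ := by ring) (by positivity) (by
    rw [hH, hW]
    have h1 : (L : ℝ) ^ 20 = (L ^ 9) ^ 2 * L ^ 2 := by ring
    have h2 : (400 : ℝ) ≤ L ^ 2 := by nlinarith
    rw [h1]
    have h3 : (1 + (L : ℝ) ^ 9 + 2) ≤ 4 * L ^ 9 := by linarith
    have h4 : (1 + (L : ℝ) ^ 9 + 2) ^ 2 ≤ (4 * L ^ 9) ^ 2 := by gcongr
    have h5 : (4 * (L : ℝ) ^ 9) ^ 2 = 16 * (L ^ 9) ^ 2 := by ring
    have h6 : ((L : ℝ) ^ 9) ^ 2 * 400 ≤ (L ^ 9) ^ 2 * L ^ 2 := mul_le_mul_of_nonneg_left h2 (by positivity)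
    have h7 : 0 ≤ ((L : ℝ) ^ 9) ^ 2 := by positivity
    rw [h5] at h4
    linarith)
  set k := M - (HH n - 1) with hk
  have hkX : (k : ℝ) ≤ XX n := by
    have : k ≤ XX n := by omega
    exact_mod_cast this
  have hX2 : (XX n : ℝ) * (XX n / n) ≤ 1 / 4 := by
    rw [← mul_div_assoc, div_le_iff₀ (by linarith), hX]
    have : (L : ℝ) ^ 23 * L ^ 23 = L ^ 46 := by ring
    rw [this]
    linarith
  have hBer : (1 : ℝ) / 2 ≤ (1 - 2 * (P - p)) ^ k := by
    have h1 := one_add_mul_le_pow (a := -(2 * (P - p))) (by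
      have h2 : (XX n : ℝ) / n ≤ 1 := by rw [div_le_one (by linarith)]; exact hXn
      linarith) k
    have h3 : (k : ℝ) * (P - p) ≤ 1 / 4 := by
      calc (k : ℝ) * (P - p) ≤ XX n * (XX n / n) := mul_le_mul hkX hPp hPp0 hX0
        _ ≤ _ := hX2
    have h4 : 1 + -(2 * (P - p)) = 1 - 2 * (P - p) := by ring
    rw [h4] at h1
    linarith
  have hcmp : (1 - p) * (1 - 2 * (P - p)) ≤ 1 - P := by nlinarith
  have h1P : (1 / 2 : ℝ) * (1 - p) ^ k ≤ (1 - P) ^ k := by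
    have h5 : 0 ≤ 1 - 2 * (P - p) := by
      have h6 : (XX n : ℝ) / n ≤ 1 / 4 := by
        have h7 : (1 : ℝ) ≤ XX n := by rw [hX]; exact one_le_pow₀ (by linarith)
        have h8 : 0 ≤ (XX n : ℝ) / n := by positivity
        nlinarith
      linarith
    calc (1 / 2 : ℝ) * (1 - p) ^ k ≤ (1 - 2 * (P - p)) ^ k * (1 - p) ^ k := by
          have : 0 ≤ 1 - p := by linarith
          gcongr
      _ = ((1 - p) * (1 - 2 * (P - p))) ^ k := by rw [mul_pow]; ring
      _ ≤ _ := by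
          apply pow_le_pow_left₀ _ hcmp
          exact mul_nonneg (by linarith) h5
  have hpL : 1 / (3 * (L : ℝ)) ≤ p := one_div_le_one_div_of_le (by linarith) hY3
  have hL25 : 1 / (L : ℝ) ^ 25 ≤ (1 / 2) * (1 / (3 * ((M : ℝ) + 1))) * (1 / (3 * (L : ℝ))) := by
    have h1 : (1 / 2) * (1 / (3 * ((M : ℝ) + 1))) * (1 / (3 * (L : ℝ))) = 1 / (18 * (((M : ℝ) + 1) * L)) := by
      field_simp; ring
    rw [h1]
    apply one_div_le_one_div_of_le (by positivity)
    have h2 : ((M : ℝ) + 1) * L ≤ L ^ 23 * L := by rw [← hX]; gcongr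
    have h3 : (L : ℝ) ^ 25 = L ^ 23 * L * L := by ring
    have h4 : (L : ℝ) ^ 23 * L * 20 ≤ L ^ 23 * L * L := mul_le_mul_of_nonneg_left hLr (by positivity)
    have h5 : 0 ≤ (L : ℝ) ^ 23 * L := by positivity
    rw [h3]
    linarith
  calc 1 / (L : ℝ) ^ 25 ≤ (1 / 2) * (1 / (3 * ((M : ℝ) + 1))) * (1 / (3 * (L : ℝ))) := hL25
    _ ≤ (1 / 2) * ((M.choose (HH n - 1) : ℝ) * p ^ (HH n - 1) * (1 - p) ^ k) * p := by
        apply mul_le_mul _ hpL (by positivity) _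
        · exact mul_le_mul_of_nonneg_left hbin (by norm_num)
        · have h1p : 0 ≤ 1 - p := by linarith
          positivity
    _ = (M.choose (HH n - 1) : ℝ) * p ^ (HH n - 1) * ((1 / 2) * (1 - p) ^ k) * p := by ring
    _ ≤ (M.choose (HH n - 1) : ℝ) * p ^ (HH n - 1) * (1 - P) ^ k * p := by gcongr

end Pool.Agent.R494.IX
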