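import Mathlib
import Pool.Agent.R494.IX.Tri

set_option autoImplicit false
set_option linter.unusedSectionVars false

/-! # Many trials -/

open MeasureTheory Filter Set
open scoped ENNReal Topology

namespace Pool.Agent.R494.IX

open Pool.Agent.R528.RM

variable {Ω : Type} {m0 : MeasurableSpace Ω} {μ : Measure Ω} [IsProbabilityMeasure μ]
  {ℱ : Filtration ℕ m0} {A : ℕ → Set Ω}

/-- `v` and `v + 2` are members -/
def TW (A : ℕ → Set Ω) (v : ℕ) : Set Ω := A v ∩ A (v + 2)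

/-- there is a pair in the window -/
def WE (A : ℕ → Set Ω) (z W t : ℕ) : Set Ω := {ω | ∃ v, z ≤ v ∧ v ≤ z + W ∧ v + 2 < t ∧ ω ∈ TW A v}

/-- regularity: the `(a - H)`-th member `t` lies in `[n + 1, N]` and there is a pair in its window -/
def Reg (A : ℕ → Set Ω) (z : ℕ → ℕ → ℕ) (W H n N a : ℕ) : Set Ω :=
  {ω | ∃ t, n + 1 ≤ t ∧ t ≤ N ∧ ω ∈ RR A (a - H) t ∧ ω ∈ WE A (z a t) W t}

lemma TW_meas (hA : ∀ n, MeasurableSet[ℱ n] (A n)) {v t : ℕ} (h : v + 2 ≤ t) : MeasurableSet[ℱ t] (TW A v) :=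
  (ℱ.mono (by omega) _ (hA v)).inter (ℱ.mono h _ (hA (v + 2)))

lemma WE_meas (hA : ∀ n, MeasurableSet[ℱ n] (A n)) (z W t : ℕ) : MeasurableSet[ℱ t] (WE A z W t) := by
  have h1 : WE A z W t = ⋃ v ∈ (Finset.Icc z (z + W)).filter (fun v => v + 2 < t), TW A v := by
    ext ω
    unfold WE
    simp only [Set.mem_ofPred_eq, mem_iUnion, Finset.mem_filter, Finset.mem_Icc, exists_prop]
    constructor
    · rintro ⟨v, a1, a2, a3, a4⟩
      exact ⟨v, ⟨⟨a1, a2⟩, a3⟩, a4⟩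
    · rintro ⟨v, ⟨⟨a1, a2⟩, a3⟩, a4⟩
      exact ⟨v, a1, a2, a3, a4⟩
  rw [h1]
  apply Finset.measurableSet_biUnion
  intro v hv
  rw [Finset.mem_filter] at hv
  exact TW_meas hA (by omega)

/-- the first pair of the window -/
def LT (A : ℕ → Set Ω) (z v : ℕ) : Set Ω := TW A v \ ⋃ u ∈ Finset.Ico z v, TW A u

lemma LT_meas (hA : ∀ n, MeasurableSet[ℱ n] (A n)) {z v t : ℕ} (h : v + 2 ≤ t) : MeasurableSet[ℱ t] (LT A z v) := by
  unfold LT
  apply MeasurableSet.diff (TW_meas hA h)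
  apply Finset.measurableSet_biUnion
  intro u hu
  rw [Finset.mem_Ico] at hu
  exact TW_meas hA (by omega)

lemma LT_disj {z v v' : ℕ} {ω : Ω} (hz : z ≤ v) (hz' : z ≤ v') (h : ω ∈ LT A z v) (h' : ω ∈ LT A z v') : v = v' := by
  obtain ⟨a1, a2⟩ := h
  obtain ⟨b1, b2⟩ := h'
  simp only [mem_iUnion, exists_prop, Finset.mem_Ico, not_exists, not_and] at a2 b2
  rcases lt_trichotomy v v' with h1 | h1 | h1
  · exact absurd a1 (b2 v ⟨hz, h1⟩)
  · exact h1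
  · exact absurd b1 (a2 v' ⟨hz', h1⟩)

lemma WE_LT {z W t : ℕ} {ω : Ω} (h : ω ∈ WE A z W t) : ∃ v, z ≤ v ∧ v ≤ z + W ∧ v + 2 < t ∧ ω ∈ LT A z v := by
  classical
  have hex : ∃ v, z ≤ v ∧ ω ∈ TW A v := by
    obtain ⟨v, h1, -, -, h4⟩ := h
    exact ⟨v, h1, h4⟩
  obtain ⟨v, h1, h2, h3, h4⟩ := h
  have hle : Nat.find hex ≤ v := Nat.find_min' hex ⟨h1, h4⟩
  obtain ⟨g1, g2⟩ := Nat.find_spec hex
  refine ⟨Nat.find hex, g1, by omega, by omega, g2, ?_⟩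
  simp only [mem_iUnion, exists_prop, Finset.mem_Ico, not_exists, not_and]
  rintro u ⟨hu1, hu2⟩ hu3
  exact Nat.find_min hex hu2 ⟨hu1, hu3⟩

/-- one more trial -/
lemma seq_step (hA : ∀ n, MeasurableSet[ℱ n] (A n)) (z : ℕ → ℕ → ℕ) (W H n N a : ℕ) (r : ℝ)
    (htr : ∀ t v : ℕ, n + 1 ≤ t → t ≤ N → z a t ≤ v → v ≤ z a t + W → v + 2 < t → ∀ E : Set Ω, MeasurableSet[ℱ t] E →
      E ⊆ RR A (a - H) t → E ⊆ TW A v → r * μ.real E ≤ μ.real (E ∩ Suc A a))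
    (F : Set Ω) (hFm : MeasurableSet F) (hF : ∀ t, n + 1 ≤ t → MeasurableSet[ℱ t] (F ∩ RR A (a - H) t)) (hS : MeasurableSet (Suc A a))
    (hr : r ≤ 1) :
    μ.real (F ∩ (Reg A z W H n N a \ Suc A a)) ≤ (1 - r) * μ.real F := by
  classical
  set P : Finset (ℕ × ℕ) := ((Finset.Icc (n + 1) N) ×ˢ (Finset.range N)).filter
    (fun x => z a x.1 ≤ x.2 ∧ x.2 ≤ z a x.1 + W ∧ x.2 + 2 < x.1) with hP
  set X : ℕ × ℕ → Set Ω := fun x => (F ∩ RR A (a - H) x.1) ∩ LT A (z a x.1) x.2 with hX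
  have hPm : ∀ x ∈ P, (n + 1 ≤ x.1 ∧ x.1 ≤ N) ∧ z a x.1 ≤ x.2 ∧ x.2 ≤ z a x.1 + W ∧ x.2 + 2 < x.1 := by
    intro x hx
    rw [hP, Finset.mem_filter, Finset.mem_product, Finset.mem_Icc] at hx
    exact ⟨hx.1.1, hx.2⟩
  have hXm : ∀ x ∈ P, MeasurableSet[ℱ x.1] (X x) := by
    intro x hx
    obtain ⟨⟨h1, h2⟩, h3, h4, h5⟩ := hPm x hx
    exact (hF x.1 h1).inter (LT_meas hA (by omega))
  have hXm' : ∀ x ∈ P, MeasurableSet (X x) := fun x hx => ℱ.le _ _ (hXm x hx)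
  have hdisj : ∀ x ∈ P, ∀ y ∈ P, x ≠ y → Disjoint (X x) (X y) := by
    intro x hx y hy hxy
    rw [Set.disjoint_left]
    rintro ω ⟨⟨-, h1⟩, h2⟩ ⟨⟨-, h3⟩, h4⟩
    apply hxy
    have e1 := RR_unique h1 h3
    rw [← e1] at h4
    obtain ⟨-, h5, -, -⟩ := hPm x hx
    obtain ⟨-, h6, -, -⟩ := hPm y hy
    rw [← e1] at h6
    exact Prod.ext e1 (LT_disj h5 h6 h2 h4)
  have hcov : F ∩ (Reg A z W H n N a \ Suc A a) ⊆ ⋃ x ∈ P, (X x \ Suc A a) := by
    rintro ω ⟨h1, ⟨t, h2, h3, h4, h5⟩, h6⟩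
    obtain ⟨v, g1, g2, g3, g4⟩ := WE_LT h5
    simp only [mem_iUnion, exists_prop]
    refine ⟨(t, v), ?_, ⟨⟨h1, h4⟩, g4⟩, h6⟩
    rw [hP, Finset.mem_filter, Finset.mem_product, Finset.mem_Icc, Finset.mem_range]
    exact ⟨⟨⟨h2, h3⟩, by simp only; omega⟩, g1, g2, g3⟩
  have hone : ∀ x ∈ P, μ.real (X x \ Suc A a) ≤ (1 - r) * μ.real (X x) := by
    intro x hx
    obtain ⟨⟨h1, h2⟩, h3, h4, h5⟩ := hPm x hx
    have g1 := htr x.1 x.2 h1 h2 h3 h4 h5 (X x) (hXm x hx) (fun ω hω => hω.1.2) (fun ω hω => hω.2.1)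
    have g2 := measureReal_inter_add_sdiff (μ := μ) (s := X x) (t := Suc A a) hS
    linarith
  calc μ.real (F ∩ (Reg A z W H n N a \ Suc A a)) ≤ μ.real (⋃ x ∈ P, (X x \ Suc A a)) :=
        measureReal_mono hcov (measure_ne_top _ _)
    _ ≤ ∑ x ∈ P, μ.real (X x \ Suc A a) := measureReal_biUnion_finset_le _ _
    _ ≤ ∑ x ∈ P, (1 - r) * μ.real (X x) := Finset.sum_le_sum hone
    _ = (1 - r) * ∑ x ∈ P, μ.real (X x) := by rw [Finset.mul_sum]
    _ = (1 - r) * μ.real (⋃ x ∈ P, X x) := by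
        rw [measureReal_biUnion_finset]
        · intro x hx y hy hxy
          exact hdisj x hx y hy hxy
        · exact hXm'
    _ ≤ (1 - r) * μ.real F := by
        apply mul_le_mul_of_nonneg_left _ (by linarith)
        apply measureReal_mono _ (measure_ne_top _ _)
        intro ω hω
        simp only [mem_iUnion, exists_prop] at hω
        obtain ⟨x, -, hx⟩ := hω
        exact hx.1.1

lemma Suc_meas (hA : ∀ n, MeasurableSet[ℱ n] (A n)) (q : ℕ) (hq : 1 ≤ q) : MeasurableSet (Suc A q) := by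
  have h1 : Suc A q = ⋃ T, SucT A q T := by
    ext ω
    unfold Suc SucT
    simp only [Set.mem_ofPred_eq, mem_iUnion]
    constructor
    · rintro ⟨s, h⟩
      exact ⟨s, s, le_rfl, h⟩
    · rintro ⟨T, s, -, h⟩
      exact ⟨s, h⟩
  rw [h1]
  exact MeasurableSet.iUnion fun T => ℱ.le _ _ (SucT_meas hA q T hq)

/-- truncated regularity -/
def RegT (A : ℕ → Set Ω) (z : ℕ → ℕ → ℕ) (W H n N a T : ℕ) : Set Ω :=
  {ω | ∃ t, t ≤ T ∧ n + 1 ≤ t ∧ t ≤ N ∧ ω ∈ RR A (a - H) t ∧ ω ∈ WE A (z a t) W t}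

lemma RegT_meas (hA : ∀ n, MeasurableSet[ℱ n] (A n)) (z : ℕ → ℕ → ℕ) (W H n N a T : ℕ) :
    MeasurableSet[ℱ T] (RegT A z W H n N a T) := by
  have h1 : RegT A z W H n N a T = ⋃ t ∈ (Finset.Icc (n + 1) N).filter (fun t => t ≤ T), (RR A (a - H) t ∩ WE A (z a t) W t) := by
    ext ω
    unfold RegT
    simp only [Set.mem_ofPred_eq, mem_iUnion, Finset.mem_filter, Finset.mem_Icc, exists_prop, mem_inter_iff]
    constructor
    · rintro ⟨t, a1, a2, a3, a4⟩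
      exact ⟨t, ⟨⟨a2, a3⟩, a1⟩, a4⟩
    · rintro ⟨t, ⟨⟨a2, a3⟩, a1⟩, a4⟩
      exact ⟨t, a1, a2, a3, a4⟩
  rw [h1]
  apply Finset.measurableSet_biUnion
  intro t ht
  rw [Finset.mem_filter] at ht
  exact ℱ.mono ht.2 _ ((RR_meas hA _ t).inter (WE_meas hA _ _ t))

lemma Reg_meas (hA : ∀ n, MeasurableSet[ℱ n] (A n)) (z : ℕ → ℕ → ℕ) (W H n N a : ℕ) :
    MeasurableSet (Reg A z W H n N a) := by
  have h1 : Reg A z W H n N a = RegT A z W H n N a N := by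
    ext ω
    unfold Reg RegT
    simp only [Set.mem_ofPred_eq]
    constructor
    · rintro ⟨t, a2, a3, a4⟩
      exact ⟨t, a3, a2, a3, a4⟩
    · rintro ⟨t, a1, a2, a3, a4⟩
      exact ⟨t, a2, a3, a4⟩
  rw [h1]
  exact ℱ.le _ _ (RegT_meas hA z W H n N a N)

/-- all trials -/
theorem seq_all (hA : ∀ n, MeasurableSet[ℱ n] (A n)) (z : ℕ → ℕ → ℕ) (W H n N : ℕ) (r : ℝ) (hr0 : 0 ≤ r) (hr : r ≤ 1)
    (hH : 1 ≤ H) (s : Finset ℕ)
    (htr : ∀ a ∈ s, ∀ t v : ℕ, n + 1 ≤ t → t ≤ N → z a t ≤ v → v ≤ z a t + W → v + 2 < t → ∀ E : Set Ω, MeasurableSet[ℱ t] E →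
      E ⊆ RR A (a - H) t → E ⊆ TW A v → r * μ.real E ≤ μ.real (E ∩ Suc A a))
    (hsH : ∀ q ∈ s, H + 1 ≤ q) (hsp : ∀ q ∈ s, ∀ q' ∈ s, q < q' → q + H ≤ q')
    (J : Set Ω) (hJ : MeasurableSet[ℱ (n + 1)] J) :
    μ.real (J ∩ ⋂ q ∈ s, (Reg A z W H n N q \ Suc A q)) ≤ (1 - r) ^ s.card * μ.real J := by
  classical
  induction s using Finset.induction_on_max with
  | empty => simp
  | insert a s hmax ih =>
    have ha : a ∉ s := fun h => lt_irrefl _ (hmax a h)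
    have ih' := ih (fun b hb => htr b (Finset.mem_insert_of_mem hb)) (fun b hb => hsH b (Finset.mem_insert_of_mem hb))
      (fun b hb c hc => hsp b (Finset.mem_insert_of_mem hb) c (Finset.mem_insert_of_mem hc))
    set F : Set Ω := J ∩ ⋂ q ∈ s, (Reg A z W H n N q \ Suc A q) with hF
    have hFm : MeasurableSet F := by
      apply (ℱ.le _ _ hJ).inter
      apply Finset.measurableSet_biInter
      intro q hq
      have := hsH q (Finset.mem_insert_of_mem hq)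
      exact (Reg_meas (ℱ := ℱ) hA z W H n N q).diff (Suc_meas (ℱ := ℱ) hA q (by omega))
    have hFt : ∀ t, n + 1 ≤ t → MeasurableSet[ℱ t] (F ∩ RR A (a - H) t) := by
      intro t ht
      have e1 : F ∩ RR A (a - H) t =
          (J ∩ ⋂ q ∈ s, (RegT A z W H n N q t \ SucT A q t)) ∩ RR A (a - H) t := by
        ext ω
        simp only [hF, mem_inter_iff, mem_iInter, Set.mem_sdiff]
        constructor
        · rintro ⟨⟨h1, h2⟩, h3⟩
          refine ⟨⟨h1, fun q hq => ?_⟩, h3⟩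
          obtain ⟨⟨t', g1, g2, g3, g4⟩, g5⟩ := h2 q hq
          have hqa := hsp q (Finset.mem_insert_of_mem hq) a (Finset.mem_insert_self _ _) (hmax q hq)
          have hqH := hsH q (Finset.mem_insert_of_mem hq)
          have hlt := RR_lt g3 h3 (by omega)
          refine ⟨⟨t', hlt.le, g1, g2, g3, g4⟩, ?_⟩
          rintro ⟨u, -, hu⟩
          exact g5 ⟨u, hu⟩
        · rintro ⟨⟨h1, h2⟩, h3⟩
          refine ⟨⟨h1, fun q hq => ?_⟩, h3⟩
          obtain ⟨⟨t', g0, g1, g2, g3, g4⟩, g5⟩ := h2 q hq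
          refine ⟨⟨t', g1, g2, g3, g4⟩, ?_⟩
          rintro ⟨u, hu1, hu2⟩
          apply g5
          refine ⟨u, ?_, hu1, hu2⟩
          have hqa := hsp q (Finset.mem_insert_of_mem hq) a (Finset.mem_insert_self _ _) (hmax q hq)
          rcases Nat.lt_or_ge q (a - H) with hc | hc
          · exact (RR_lt hu1 h3 hc).le
          · have : q = a - H := by omega
            rw [this] at hu1
            exact (RR_unique hu1 h3).le
      rw [e1]
      apply MeasurableSet.inter _ (RR_meas hA _ t)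
      apply MeasurableSet.inter (ℱ.mono ht _ hJ)
      apply Finset.measurableSet_biInter
      intro q hq
      have := hsH q (Finset.mem_insert_of_mem hq)
      exact (RegT_meas hA z W H n N q t).diff (SucT_meas hA q t (by omega))
    have h1 := seq_step (μ := μ) (ℱ := ℱ) hA z W H n N a r (htr a (Finset.mem_insert_self _ _)) F hFm hFt
      (Suc_meas (ℱ := ℱ) hA a (by have := hsH a (Finset.mem_insert_self _ _); omega)) hr
    have e2 : J ∩ ⋂ q ∈ insert a s, (Reg A z W H n N q \ Suc A q) = F ∩ (Reg A z W H n N a \ Suc A a) := by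
      rw [Finset.set_biInter_insert, hF]
      ext ω
      simp only [mem_inter_iff]
      tauto
    rw [e2, Finset.card_insert_of_notMem ha]
    calc μ.real (F ∩ (Reg A z W H n N a \ Suc A a)) ≤ (1 - r) * μ.real F := h1
      _ ≤ (1 - r) * ((1 - r) ^ s.card * μ.real J) := mul_le_mul_of_nonneg_left ih' (by linarith)
      _ = _ := by rw [pow_succ]; ring

end Pool.Agent.R494.IX
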