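import Mathlib
import Pool.Agent.R494.IX.Seq
import Pool.Agent.R494.IX.Par
import Pool.Agent.R494.SPL2
import Pool.Agent.R960.Fam.Law

set_option autoImplicit false
set_option linter.unusedSectionVars false

/-! # Almost sure regularity in Cramér's model -/

open MeasureTheory Filter Set Asymptotics
open scoped ENNReal Topology

namespace Pool.Agent.R494.IX

open Pool.Agent.R528.RM

variable {Ω : Type} {m0 : MeasurableSpace Ω} {μ : Measure Ω} [IsProbabilityMeasure μ]
  {ℱ : Filtration ℕ m0} {A : ℕ → Set Ω}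

lemma rC_nonneg (m : ℕ) : 0 ≤ rC m := by
  unfold rC
  have := Real.log_natCast_nonneg m
  positivity

lemma hprof (hd : ∀ n, 2 ≤ n → ∀ᵐ ω ∂μ, dens μ ℱ A n ω = rC (n + 1)) :
    ∀ᵐ ω ∂μ, ∀ ε : ℝ, 0 < ε → ∀ᶠ n : ℕ in atTop, |dens μ ℱ A n ω - rC (n + 1)| ≤ ε * rC (n + 1) := by
  have h1 : ∀ᵐ ω ∂μ, ∀ n, 2 ≤ n → dens μ ℱ A n ω = rC (n + 1) := by
    rw [ae_all_iff]
    intro n
    by_cases h : 2 ≤ n
    · filter_upwards [hd n h] with ω hω _
      exact hω
    · exact Eventually.of_forall fun ω h' => absurd h' h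
  filter_upwards [h1] with ω hω ε hε
  filter_upwards [eventually_ge_atTop 2] with n hn
  rw [hω n hn, sub_self, abs_zero]
  exact mul_nonneg hε.le (rC_nonneg _)

lemma log_sqrt_le {x m : ℕ} (hx : 1 ≤ x) (hm : Nat.sqrt x < m) : Real.log x ≤ 2 * Real.log m := by
  have h1 : x < m ^ 2 := by
    have := Nat.sqrt_lt'.1 hm
    exact this
  have h2 : (x : ℝ) ≤ (m : ℝ) ^ 2 := by exact_mod_cast h1.le
  have h3 := Real.log_le_log (by exact_mod_cast hx) h2
  rw [Real.log_pow] at h3
  exact_mod_cast h3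

theorem cc_bounds (hA : ∀ n, MeasurableSet[ℱ n] (A n)) (hd : ∀ n, 2 ≤ n → ∀ᵐ ω ∂μ, dens μ ℱ A n ω = rC (n + 1)) :
    ∀ᵐ ω ∂μ, ∀ᶠ x : ℕ in atTop, (CC A x ω : ℝ) ≤ x / 8 ∧ 2 * √(x : ℝ) ≤ CC A x ω := by
  classical
  have hsq : Tendsto Nat.sqrt atTop atTop := by
    rw [tendsto_atTop_atTop]
    intro b
    refine ⟨b ^ 2, fun a ha => ?_⟩
    rw [Nat.le_sqrt']
    exact ha
  have h := Pool.Agent.R494.SPL.sparse_law (μ := μ) (ℱ := ℱ) (A := A) hA rC_nonneg (hprof hd) 1
    (fun x : ℕ => ({x} : Finset ℕ)) (by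
      filter_upwards [eventually_ge_atTop 1] with x hx
      rw [Finset.card_singleton, pow_one]
      exact hx) (fun x => Finset.Ioc (Nat.sqrt x) x) Nat.sqrt hsq (by
      filter_upwards with x a ha m hm
      rw [Finset.mem_singleton] at ha
      subst ha
      rw [Finset.mem_Ioc] at hm
      omega)
  filter_upwards [h] with ω hω
  obtain ⟨K, hK0, hK⟩ := hω (1 / 2) (by norm_num)
  have hlo := (isLittleO_log_rpow_atTop (show (0 : ℝ) < 1 / 2 by norm_num)).bound
    (show (0 : ℝ) < 1 / (16 * (K + 1)) by positivity)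
  have hsx : ∀ᶠ x : ℕ in atTop, (100 : ℝ) ≤ √(x : ℝ) :=
    (Real.tendsto_sqrt_atTop.comp tendsto_natCast_atTop_atTop).eventually_ge_atTop _
  have hlx : ∀ᶠ x : ℕ in atTop, (48 : ℝ) ≤ Real.log (x : ℝ) :=
    (Real.tendsto_log_atTop.comp tendsto_natCast_atTop_atTop).eventually_ge_atTop _
  filter_upwards [hK, tendsto_natCast_atTop_atTop.eventually hlo, hsx, hlx, eventually_ge_atTop 1] with x h1 h2 h3 h4 h5
  have h1' := h1 x (Finset.mem_singleton_self _)
  set E : ℝ := ∑ m ∈ Finset.Ioc (Nat.sqrt x) x, rC m with hE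
  set I : ℝ := ∑ m ∈ Finset.Ioc (Nat.sqrt x) x, In A m ω with hI
  set s := Nat.sqrt x with hs
  have hx0 : (0 : ℝ) < x := by exact_mod_cast h5
  set R : ℝ := √(x : ℝ) with hR
  have hRR : R * R = x := Real.mul_self_sqrt hx0.le
  have hsR : (s : ℝ) ≤ R := Real.nat_sqrt_le_real_sqrt
  set l : ℝ := Real.log (x : ℝ) with hl
  have hl0 : 0 < l := by linarith
  rw [Real.norm_eq_abs, Real.norm_eq_abs, abs_of_nonneg hl0.le, abs_of_nonneg (by positivity),
    ← Real.sqrt_eq_rpow, ← hR] at h2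
  have hlR : l * (16 * (K + 1)) ≤ R := by
    rw [one_div, ← div_eq_inv_mul, le_div_iff₀ (by positivity)] at h2
    exact h2
  have hKl : K * l ≤ R / 16 := by nlinarith
  have hlR' : 16 * l ≤ R := by nlinarith
  -- bounds for E
  have hcard : ((Finset.Ioc s x).card : ℝ) = x - s := by
    rw [Nat.card_Ioc, Nat.cast_sub (Nat.sqrt_le_self x)]
  have hEu : E ≤ x * (2 / l) := by
    have g1 : ∀ m ∈ Finset.Ioc s x, rC m ≤ 2 / l := by
      intro m hm
      rw [Finset.mem_Ioc] at hm
      have g2 := log_sqrt_le h5 hm.1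
      unfold rC
      rw [div_le_div_iff₀ (by linarith) hl0]
      linarith
    refine (Finset.sum_le_card_nsmul _ _ _ g1).trans ?_
    rw [nsmul_eq_mul, hcard]
    have : 0 ≤ 2 / l := by positivity
    have hs0 : (0 : ℝ) ≤ s := by positivity
    nlinarith
  have hEl : (x - s) * (1 / l) ≤ E := by
    rw [← hcard, ← nsmul_eq_mul]
    apply Finset.card_nsmul_le_sum
    intro m hm
    rw [Finset.mem_Ioc] at hm
    have hm0 : (0 : ℝ) < m := by exact_mod_cast (by omega : 0 < m)
    have hs1 : 1 ≤ s := Nat.sqrt_pos.2 h5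
    have hm1 : (1 : ℝ) < m := by exact_mod_cast (by omega : 1 < m)
    unfold rC
    apply one_div_le_one_div_of_le (Real.log_pos hm1)
    exact Real.log_le_log hm0 (by exact_mod_cast hm.2)
  have hCC : (CC A x ω : ℝ) = ((Finset.range (s + 1)).filter (fun m => ω ∈ A m)).card + I := by
    have e1 : Finset.range (x + 1) = Finset.range (s + 1) ∪ Finset.Ioc s x := by
      ext a
      have := Nat.sqrt_le_self x
      simp only [Finset.mem_range, Finset.mem_union, Finset.mem_Ioc]
      omega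
    have e2 : I = ((Finset.Ioc s x).filter (fun m => ω ∈ A m)).card := by
      rw [hI, Finset.card_filter]
      push_cast
      refine Finset.sum_congr rfl fun m _ => ?_
      unfold In
      by_cases hm : ω ∈ A m
      · simp [hm]
      · simp [hm]
    rw [e2]
    unfold CC
    rw [e1, Finset.filter_union, Finset.card_union_of_disjoint]
    · push_cast; ring
    · apply Finset.disjoint_filter_filter
      rw [Finset.disjoint_left]
      intro a ha hb
      rw [Finset.mem_range] at ha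
      rw [Finset.mem_Ioc] at hb
      omega
  have hc1 : (((Finset.range (s + 1)).filter (fun m => ω ∈ A m)).card : ℝ) ≤ s + 1 := by
    have := Finset.card_filter_le (Finset.range (s + 1)) (fun m => ω ∈ A m)
    rw [Finset.card_range] at this
    exact_mod_cast this
  have hc0 : (0 : ℝ) ≤ (((Finset.range (s + 1)).filter (fun m => ω ∈ A m)).card : ℝ) := by positivity
  obtain ⟨b1, b2⟩ := abs_le.1 h1'
  constructor
  · have g1 : x * (2 / l) ≤ x / 24 := by
      rw [mul_div_assoc', div_le_div_iff₀ hl0 (by norm_num)]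
      nlinarith
    rw [hCC]
    nlinarith
  · have g1 : 8 * R ≤ (x - s) * (1 / l) := by
      rw [mul_one_div, le_div_iff₀ hl0]
      nlinarith
    rw [hCC]
    linarith

lemma find_member {ω : Ω} {j x n : ℕ} (h1 : CC A n ω < j) (h2 : j ≤ CC A x ω) : ∃ t, n + 1 ≤ t ∧ t ≤ x ∧ ω ∈ RR A j t := by
  classical
  have hex : ∃ t, j ≤ CC A t ω := ⟨x, h2⟩
  set t := Nat.find hex with ht
  have ht1 : j ≤ CC A t ω := Nat.find_spec hex
  have ht2 : t ≤ x := Nat.find_min' hex h2
  have ht3 : n < t := by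
    by_contra hcon
    have := CC_mono (A := A) (not_lt.1 hcon) ω
    omega
  obtain ⟨u, hu⟩ : ∃ u, t = u + 1 := ⟨t - 1, by omega⟩
  have ht4 : CC A u ω < j := by
    have := Nat.find_min hex (show u < Nat.find hex by omega)
    omega
  refine ⟨t, ht3, ht2, ?_⟩
  have h3 := CC_succ (A := A) u ω
  rw [hu] at ht1 ⊢
  by_cases h : ω ∈ A (u + 1)
  · have := h3.1 h
    exact ⟨h, by omega⟩
  · have := h3.2 h
    omega

/-- the profile cut at `1` -/
noncomputable def rC' (m : ℕ) : ℝ := min 1 (rC m)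

lemma rC_le {m : ℕ} (hm : 3 ≤ m) : rC m ≤ 1 := by
  unfold rC
  have h3 : (3 : ℝ) ≤ m := by exact_mod_cast hm
  have h1 : 1 ≤ Real.log (m : ℝ) := by
    rw [Real.le_log_iff_exp_le (by linarith)]
    have := Real.exp_one_lt_d9
    linarith
  rw [div_le_one (by linarith)]
  exact h1

lemma hprof' (hd : ∀ n, 2 ≤ n → ∀ᵐ ω ∂μ, dens μ ℱ A n ω = rC (n + 1)) :
    ∀ᵐ ω ∂μ, ∀ ε : ℝ, 0 < ε → ∀ᶠ n : ℕ in atTop, |dens μ ℱ A n ω - rC' (n + 1)| ≤ ε * rC' (n + 1) := by
  filter_upwards [hprof hd] with ω hω ε hε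
  filter_upwards [hω ε hε, eventually_ge_atTop 2] with n h1 h2
  have : rC' (n + 1) = rC (n + 1) := by
    unfold rC'
    exact min_eq_right (rC_le (by omega))
  rw [this]
  exact h1

theorem twins (hA : ∀ n, MeasurableSet[ℱ n] (A n)) (hd : ∀ n, 2 ≤ n → ∀ᵐ ω ∂μ, dens μ ℱ A n ω = rC (n + 1)) :
    ∀ᵐ ω ∂μ, ∀ᶠ x : ℕ in atTop, ∃ v, x ≤ v ∧ v ≤ x + LL x ^ 8 ∧ ω ∈ TW A v := by
  classical
  have h := Pool.Agent.R960.Fam.fam_law (μ := μ) (ℱ := ℱ) (A := A) hA (ρ := rC')
    (fun n => ⟨le_min zero_le_one (rC_nonneg n), min_le_left _ _⟩) (hprof' hd) 2 2 0 (by norm_num)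
    (fun x : ℕ => ({x} : Finset ℕ)) (by
      filter_upwards with x
      simp) (fun x : ℕ => Finset.Icc x (x + LL x ^ 8)) (fun _ v => {v, v + 2}) id tendsto_id (by
      filter_upwards with x a ha v hv
      rw [Finset.mem_singleton] at ha
      subst ha
      rw [Finset.mem_Icc] at hv
      refine ⟨Finset.card_pair (by omega), ?_⟩
      intro m hm
      rw [Finset.mem_insert, Finset.mem_singleton] at hm
      simp only [id]
      omega) (by
      filter_upwards with x a ha m
      have h1 : {i | i ∈ Finset.Icc a (a + LL a ^ 8) ∧ m ∈ ({i, i + 2} : Finset ℕ)} ⊆ (({m, m - 2} : Finset ℕ) : Set ℕ) := by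
        rintro i ⟨hi, hm⟩
        rw [Finset.mem_insert, Finset.mem_singleton] at hm
        rw [Finset.mem_coe, Finset.mem_insert, Finset.mem_singleton]
        omega
      refine (Set.ncard_le_ncard h1 (Finset.finite_toSet _)).trans ?_
      rw [Set.ncard_coe_finset]
      exact Finset.card_le_two)
  filter_upwards [h] with ω hω
  filter_upwards [hω (1 / 2) (by norm_num), LL_tendsto.eventually_ge_atTop 50000, ev_poly 8 1 (by norm_num),
    eventually_ge_atTop 16] with x h1 hL h8 hx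
  have h1' := h1 x (Finset.mem_singleton_self _)
  set L : ℝ := (LL x : ℝ) with hLdef
  have hLr : (50000 : ℝ) ≤ L := by rw [hLdef]; exact_mod_cast hL
  have hx16 : (16 : ℝ) ≤ x := by exact_mod_cast hx
  have hcard : ((Finset.Icc x (x + LL x ^ 8)).card : ℝ) = L ^ 8 + 1 := by
    rw [Nat.card_Icc]
    have : x + LL x ^ 8 + 1 - x = LL x ^ 8 + 1 := by omega
    rw [this]
    push_cast
    rfl
  have hprod : ∀ g : ℕ → ℝ, ∑ i ∈ Finset.Icc x (x + LL x ^ 8), ∏ m ∈ ({i, i + 2} : Finset ℕ), g m =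
      ∑ i ∈ Finset.Icc x (x + LL x ^ 8), g i * g (i + 2) := by
    intro g
    refine Finset.sum_congr rfl fun i _ => ?_
    exact Finset.prod_pair (by omega)
  rw [hprod (fun m => In A m ω), hprod rC', hcard] at h1'
  set E : ℝ := ∑ i ∈ Finset.Icc x (x + LL x ^ 8), rC' i * rC' (i + 2) with hE
  have hlogx := log_le_LL x (by omega)
  rw [← hLdef] at hlogx
  have hElow : (L ^ 8 + 1) * (1 / (2 * L) ^ 2) ≤ E := by
    rw [← hcard, ← nsmul_eq_mul]
    apply Finset.card_nsmul_le_sum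
    intro i hi
    rw [Finset.mem_Icc] at hi
    have hone : ∀ m : ℕ, 3 ≤ m → m ≤ x + LL x ^ 8 + 2 → 1 / (2 * L) ≤ rC' m := by
      intro m hm1 hm2
      unfold rC'
      rw [min_eq_right (rC_le hm1)]
      unfold rC
      have hm3 : (3 : ℝ) ≤ m := by exact_mod_cast hm1
      apply one_div_le_one_div_of_le (Real.log_pos (by linarith))
      have hm2' : (m : ℝ) ≤ x + L ^ 8 + 2 := by
        rw [hLdef]
        exact_mod_cast hm2
      have hm4 : (m : ℝ) ≤ 4 * x := by linarith
      have := Real.log_le_log (by linarith) hm4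
      rw [Real.log_mul (by norm_num) (by linarith)] at this
      have h4 : Real.log 4 ≤ 2 := by
        have e4 : Real.log 4 = 2 * Real.log 2 := by
          rw [show (4 : ℝ) = 2 ^ 2 by norm_num, Real.log_pow]
          norm_num
        rw [e4]
        have := Real.log_two_lt_d9
        linarith
      linarith
    have g1 := hone i (by omega) (by omega)
    have g2 := hone (i + 2) (by omega) (by omega)
    have g3 : 0 ≤ 1 / (2 * L) := by positivity
    calc 1 / (2 * L) ^ 2 = (1 / (2 * L)) * (1 / (2 * L)) := by field_simp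
      _ ≤ _ := mul_le_mul g1 g2 g3 (g3.trans g1)
  have hsqrt : 2 * (2 : ℕ) * (2 : ℕ) * √(2 * ((0 : ℕ) + 2) * Real.log x * (L ^ 8 + 1)) < 1 / 2 * E := by
    push_cast
    have g1 : √(2 * (0 + 2) * Real.log x * (L ^ 8 + 1)) ≤ L ^ 5 / 40 := by
      apply Real.sqrt_le_iff.2
      refine ⟨by positivity, ?_⟩
      have g2 : 0 ≤ Real.log (x : ℝ) := Real.log_natCast_nonneg x
      have g3 : (1 : ℝ) ≤ L ^ 8 := one_le_pow₀ (by linarith)
      calc 2 * (0 + 2) * Real.log x * (L ^ 8 + 1) ≤ 2 * (0 + 2) * (2 * L) * (2 * L ^ 8) := by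
            gcongr
            · linarith
            · linarith
        _ = 16 * L ^ 9 := by ring
        _ ≤ (L ^ 5 / 40) ^ 2 := by
            have e1 : (L ^ 5 / 40) ^ 2 = L ^ 9 * (L / 1600) := by ring
            rw [e1, mul_comm (16 : ℝ)]
            apply mul_le_mul_of_nonneg_left _ (by positivity)
            linarith
    have g4 : L ^ 6 / 8 ≤ 1 / 2 * E := by
      have e2 : L ^ 6 / 4 ≤ (L ^ 8 + 1) * (1 / (2 * L) ^ 2) := by
        have e3 : (L ^ 8 + 1) * (1 / (2 * L) ^ 2) = (L ^ 8 + 1) / (4 * L ^ 2) := by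
          rw [mul_pow]; norm_num; ring
        rw [e3, div_le_div_iff₀ (by norm_num) (by positivity)]
        nlinarith [show (0 : ℝ) ≤ L ^ 8 by positivity]
      linarith
    have g5 : L ^ 5 / 5 < L ^ 6 / 8 := by
      have e4 : L ^ 6 / 8 = L ^ 5 * (L / 8) := by ring
      have e5 : L ^ 5 / 5 = L ^ 5 * (1 / 5) := by ring
      rw [e4, e5]
      apply mul_lt_mul_of_pos_left _ (by positivity)
      linarith
    linarith
  by_contra hcon
  push Not at hcon
  have hzero : ∑ i ∈ Finset.Icc x (x + LL x ^ 8), In A i ω * In A (i + 2) ω = 0 := by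
    apply Finset.sum_eq_zero
    intro i hi
    rw [Finset.mem_Icc] at hi
    have h2 := hcon i hi.1 hi.2
    unfold TW at h2
    rw [mem_inter_iff, not_and_or] at h2
    unfold In
    rcases h2 with h2 | h2
    · rw [indicator_of_notMem h2, zero_mul]
    · rw [indicator_of_notMem h2, mul_zero]
  rw [hzero, zero_sub, abs_neg] at h1'
  have h2 := le_abs_self E
  linarith

end Pool.Agent.R494.IX
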