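import Mathlib
import Pool.Agent.R494.IX.Fin1
import Pool.Agent.R494.IX.Stm

set_option autoImplicit false
set_option linter.unusedSectionVars false

/-! # The assembly -/

open MeasureTheory Filter Set Asymptotics
open scoped ENNReal Topology

namespace Pool.Agent.R494.IX

open Pool.Agent.R528.RM

variable {Ω : Type} {m0 : MeasurableSpace Ω} {μ : Measure Ω} [IsProbabilityMeasure μ]
  {ℱ : Filtration ℕ m0} {A : ℕ → Set Ω}

/-- where the window starts -/
noncomputable def zz (n a t : ℕ) : ℕ := MM n t + t - a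

lemma htr_all (hB : S_BIN) (hA : ∀ n, MeasurableSet[ℱ n] (A n))
    (hd : ∀ n, 2 ≤ n → ∀ᵐ ω ∂μ, dens μ ℱ A n ω = rC (n + 1)) :
    ∀ᶠ n : ℕ in atTop, ∀ a : ℕ, n ≤ 2 * a → a ≤ n + 1 → ∀ t v : ℕ, n + 1 ≤ t → t ≤ n ^ 2 → zz n a t ≤ v →
      v ≤ zz n a t + WW n → v + 2 < t → ∀ E : Set Ω, MeasurableSet[ℱ t] E →
      E ⊆ RR A (a - HH n) t → E ⊆ TW A v → (1 / (LL n : ℝ) ^ 25) * μ.real E ≤ μ.real (E ∩ Suc A a) := by
  filter_upwards [par hB, LL_tendsto.eventually_ge_atTop 20, ev_poly 20 2 (by norm_num), eventually_ge_atTop 16] with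
    n hpar hL h20 hn a ha1 ha2 t v ht1 ht2 hv1 hv2 hv3 E hE hE1 hE2
  unfold zz at hv1 hv2
  have hHH : 2 * HH n ≤ n := by
    have : (HH n : ℝ) = (LL n : ℝ) ^ 20 := by unfold HH; push_cast; rfl
    have h2 : ((2 * HH n : ℕ) : ℝ) ≤ n := by
      push_cast
      rw [this]
      exact h20
    exact_mod_cast h2
  have hH1 : 1 ≤ HH n := by
    unfold HH
    exact Nat.one_le_pow _ _ (by omega)
  set M : ℕ := v + a - t with hM
  have hMt : v + a = t + M := by omega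
  have hM1 : MM n t ≤ M := by omega
  have hM2 : M ≤ MM n t + WW n := by omega
  obtain ⟨-, g2, g3, g4, g5⟩ := hpar t M (by omega) ht2 hM1 hM2
  have h1 := trial (μ := μ) (ℱ := ℱ) (A := A) hA hd a (HH n) t v M hH1 (by omega) (by omega) hMt hE hE1
    (fun ω hω => (hE2 hω).1) (fun ω hω => (hE2 hω).2) _ _ g4 g2 g3
  refine le_trans ?_ h1
  rw [mul_comm]
  exact mul_le_mul_of_nonneg_left g5 measureReal_nonneg

lemma LL_two_sq {n z : ℕ} (hn : 1 ≤ n) (hz : z ≤ 2 * n ^ 2) : LL z ≤ 2 * LL n + 3 := by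
  unfold LL
  have h1 : n < 2 ^ (Nat.log 2 n + 1) := Nat.lt_pow_succ_log_self (by norm_num) n
  have h2 : n ^ 2 < (2 ^ (Nat.log 2 n + 1)) ^ 2 := Nat.pow_lt_pow_left h1 (by norm_num)
  have h3 : z < 2 ^ (2 * Nat.log 2 n + 3) := by
    have e1 : 2 ^ (2 * Nat.log 2 n + 3) = 2 * (2 ^ (Nat.log 2 n + 1)) ^ 2 := by
      rw [← pow_mul, ← pow_succ']
      congr 1
      ring
    rw [e1]
    omega
  have h4 := Nat.log_lt_of_lt_pow' (b := 2) (x := 2 * Nat.log 2 n + 3) (y := z) (by omega) h3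
  omega

theorem reg_all (hB : S_BIN) (hA : ∀ n, MeasurableSet[ℱ n] (A n))
    (hd : ∀ n, 2 ≤ n → ∀ᵐ ω ∂μ, dens μ ℱ A n ω = rC (n + 1)) :
    ∀ᵐ ω ∂μ, ∀ᶠ n : ℕ in atTop, ∀ a : ℕ, n ≤ 2 * a → a ≤ n + 1 →
      ω ∈ Reg A (zz n) (WW n) (HH n) n (n ^ 2) a := by
  filter_upwards [cc_bounds (μ := μ) (ℱ := ℱ) hA hd, twins (μ := μ) (ℱ := ℱ) hA hd] with ω h1 h2
  obtain ⟨X, hX⟩ := eventually_atTop.1 h2
  have hsq : Tendsto (fun n : ℕ => n ^ 2) atTop atTop := tendsto_pow_atTop (by norm_num)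
  have hHt : Tendsto (fun n : ℕ => HH n) atTop atTop := by
    unfold HH
    exact (tendsto_pow_atTop (by norm_num)).comp LL_tendsto
  filter_upwards [par hB, h1, hsq.eventually h1, hHt.eventually_ge_atTop X, LL_tendsto.eventually_ge_atTop 7000,
    ev_poly 23 4 (by norm_num), eventually_ge_atTop 100] with n hpar hc1 hc2 hHX hL h23 hn a ha1 ha2
  have hXXn : 4 * XX n ≤ n := by
    have : (XX n : ℝ) = (LL n : ℝ) ^ 23 := by unfold XX; push_cast; rfl
    have h2 : ((4 * XX n : ℕ) : ℝ) ≤ n := by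
      push_cast
      rw [this]
      exact h23
    exact_mod_cast h2
  have hHX' : HH n * 8 ≤ XX n := by
    unfold HH XX
    calc LL n ^ 20 * 8 ≤ LL n ^ 20 * LL n ^ 3 := by
          apply Nat.mul_le_mul_left
          calc 8 ≤ 7000 ^ 3 := by norm_num
            _ ≤ _ := Nat.pow_le_pow_left hL 3
      _ = LL n ^ 23 := by ring
  have hnr : (100 : ℝ) ≤ n := by exact_mod_cast hn
  have hcl : CC A n ω < a - HH n := by
    have e1 : 8 * CC A n ω ≤ n := by
      have : (8 : ℝ) * CC A n ω ≤ n := by linarith [hc1.1]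
      exact_mod_cast this
    omega
  have hcu : a - HH n ≤ CC A (n ^ 2) ω := by
    have e1 : 2 * n ≤ CC A (n ^ 2) ω := by
      have e2 := hc2.2
      push_cast at e2
      rw [Real.sqrt_sq (by linarith)] at e2
      exact_mod_cast e2
    omega
  obtain ⟨t, ht1, ht2, ht3⟩ := find_member hcl hcu
  obtain ⟨g1, -⟩ := hpar t (MM n t + WW n) (by omega) ht2 (by omega) le_rfl
  have hMH : HH n ≤ MM n t := by
    unfold MM
    have hlog : 1 ≤ Real.log ((t : ℝ) + XX n) := by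
      have h3 := Real.exp_one_lt_d9
      have h4 : (100 : ℝ) ≤ t := by exact_mod_cast (by omega : 100 ≤ t)
      have h5 : (0 : ℝ) ≤ XX n := by positivity
      rw [Real.le_log_iff_exp_le (by linarith)]
      linarith
    have : (HH n : ℝ) ≤ (HH n : ℝ) * Real.log ((t : ℝ) + XX n) := le_mul_of_one_le_right (by positivity) hlog
    exact_mod_cast this.trans (Nat.le_ceil _)
  have hz1 : X ≤ zz n a t := by unfold zz; omega
  have hz2 : zz n a t ≤ 2 * n ^ 2 := by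
    unfold zz
    have : n ≤ n ^ 2 := by nlinarith
    omega
  obtain ⟨v, hv1, hv2, hv3⟩ := hX (zz n a t) hz1
  have hLz := LL_two_sq (by omega) hz2
  have hW : LL (zz n a t) ^ 8 ≤ WW n := by
    unfold WW
    calc LL (zz n a t) ^ 8 ≤ (3 * LL n) ^ 8 := Nat.pow_le_pow_left (by omega) 8
      _ = 6561 * LL n ^ 8 := by ring
      _ ≤ LL n * LL n ^ 8 := Nat.mul_le_mul_right _ (by omega)
      _ = LL n ^ 9 := by ring
  refine ⟨t, ht1, ht2, ht3, v, hv1, by omega, ?_, hv3⟩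
  unfold zz at hv2 hv1 hW
  omega

theorem cnt_all (hA : ∀ n, MeasurableSet[ℱ n] (A n)) (hd : ∀ n, 2 ≤ n → ∀ᵐ ω ∂μ, dens μ ℱ A n ω = rC (n + 1))
    (Φ : ℕ → Finset ℕ) (hΦ : ∀ᶠ n : ℕ in atTop, Real.log n ^ 40 ≤ ((Φ n).card : ℝ) ∧
      ∀ q ∈ Φ n, n ≤ 2 * q ∧ q ≤ n + 1) :
    ∀ᵐ ω ∂μ, ∀ᶠ n : ℕ in atTop, ∀ J : Finset ℕ, (∀ q, q ∈ J ↔ q ∈ Φ n ∧ ω ∈ A q) → LL n ^ 27 ≤ J.card := by
  classical
  have hmn : Tendsto (fun n : ℕ => n / 2) atTop atTop := by
    rw [tendsto_atTop_atTop]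
    intro b
    exact ⟨2 * b, fun a ha => by omega⟩
  have h := Pool.Agent.R494.SPL.sparse_law (μ := μ) (ℱ := ℱ) (A := A) hA rC_nonneg (hprof hd) 1
    (fun x : ℕ => ({x} : Finset ℕ)) (by
      filter_upwards [eventually_ge_atTop 1] with x hx
      rw [Finset.card_singleton, pow_one]
      exact hx) Φ (fun n : ℕ => n / 2) hmn (by
      filter_upwards [hΦ] with x h1 a ha m hm
      rw [Finset.mem_singleton] at ha
      subst ha
      have := h1.2 m hm
      omega)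
  filter_upwards [h] with ω hω
  obtain ⟨K, hK0, hK⟩ := hω (1 / 2) (by norm_num)
  have hlx : ∀ᶠ x : ℕ in atTop, (16 : ℝ) + K ≤ Real.log (x : ℝ) :=
    (Real.tendsto_log_atTop.comp tendsto_natCast_atTop_atTop).eventually_ge_atTop _
  filter_upwards [hK, hlx, hΦ, eventually_ge_atTop 2] with n h1 h2 h3 h4 J hJ
  obtain ⟨h5, h6⟩ := h3
  have h1' := h1 n (Finset.mem_singleton_self _)
  set E : ℝ := ∑ m ∈ Φ n, rC m with hE
  have hI : ∑ m ∈ Φ n, In A m ω = (J.card : ℝ) := by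
    have e1 : J = (Φ n).filter (fun m => ω ∈ A m) := by
      ext q
      rw [hJ q, Finset.mem_filter]
    rw [e1, Finset.card_filter]
    push_cast
    refine Finset.sum_congr rfl fun m _ => ?_
    unfold In
    by_cases hm : ω ∈ A m
    · simp [hm]
    · simp [hm]
  rw [hI] at h1'
  set l : ℝ := Real.log (n : ℝ) with hl
  have hl16 : 16 ≤ l := by linarith
  have hlK : K ≤ l := by linarith
  have hn2 : (2 : ℝ) ≤ n := by exact_mod_cast h4
  have hEl : l ^ 39 / 2 ≤ E := by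
    have g1 : ∀ q ∈ Φ n, 1 / (2 * l) ≤ rC q := by
      intro q hq
      obtain ⟨a1, a2⟩ := h6 q hq
      unfold rC
      have hq1 : 1 < q ∨ q ≤ 1 := by omega
      have hn16 : 16 < n := by
        by_contra hcon
        have e2 : (n : ℝ) ≤ 16 := by exact_mod_cast not_lt.1 hcon
        have e3 := Real.log_le_sub_one_of_pos (show (0 : ℝ) < n by linarith)
        linarith
      have hq2 : (1 : ℝ) < q := by exact_mod_cast (by omega : 1 < q)
      apply one_div_le_one_div_of_le (Real.log_pos hq2)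
      have e4 : (q : ℝ) ≤ (n : ℝ) ^ 2 := by
        have : (q : ℝ) ≤ n + 1 := by exact_mod_cast a2
        nlinarith
      have e5 := Real.log_le_log (by linarith) e4
      rw [Real.log_pow] at e5
      push_cast at e5
      exact e5
    have g2 := Finset.card_nsmul_le_sum _ _ _ g1
    rw [nsmul_eq_mul] at g2
    have g3 : l ^ 40 * (1 / (2 * l)) ≤ ((Φ n).card : ℝ) * (1 / (2 * l)) :=
      mul_le_mul_of_nonneg_right h5 (by positivity)
    have g4 : l ^ 40 * (1 / (2 * l)) = l ^ 39 / 2 := by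
      field_simp
    linarith
  obtain ⟨b1, -⟩ := abs_le.1 h1'
  have hJl : l ^ 39 / 4 - K * l ≤ (J.card : ℝ) := by linarith
  have hLL : (LL n : ℝ) ≤ 2 * l := LL_le n
  have hfin : (LL n : ℝ) ^ 27 ≤ (J.card : ℝ) := by
    have c1 : (LL n : ℝ) ^ 27 ≤ (2 * l) ^ 27 := pow_le_pow_left₀ (by positivity) hLL 27
    have c2 : (2 * l) ^ 27 = 2 ^ 27 * l ^ 27 := by rw [mul_pow]
    have c3 : l ^ 39 / 4 = l ^ 27 * (l ^ 12 / 4) := by ring
    have c4 : (16 : ℝ) ^ 11 ≤ l ^ 11 := pow_le_pow_left₀ (by norm_num) hl16 11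
    have c5 : l ^ 12 / 4 ≥ 2 ^ 27 + K := by
      have : l ^ 12 = l ^ 11 * l := by ring
      rw [this]
      have c6 : (16 : ℝ) ^ 11 * l ≤ l ^ 11 * l := mul_le_mul_of_nonneg_right c4 (by linarith)
      norm_num at c6 ⊢
      linarith
    have c7 : 0 ≤ l ^ 27 := by positivity
    have c8 : l ≤ l ^ 27 := by
      calc l = l ^ 1 := (pow_one l).symm
        _ ≤ l ^ 27 := pow_le_pow_right₀ (by linarith) (by norm_num)
    have c9 : K * l ≤ K * l ^ 27 := mul_le_mul_of_nonneg_left c8 hK0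
    have c10 : l ^ 27 * (2 ^ 27 + K) ≤ l ^ 27 * (l ^ 12 / 4) := mul_le_mul_of_nonneg_left c5 c7
    nlinarith
  exact_mod_cast hfin

open Classical in
theorem main_law (hNT : S_NT) (hB : S_BIN) (hA : ∀ n, MeasurableSet[ℱ n] (A n))
    (hd : ∀ n, 2 ≤ n → ∀ᵐ ω ∂μ, dens μ ℱ A n ω = rC (n + 1)) :
    ∀ᵐ ω ∂μ, ∀ᶠ n : ℕ in atTop, ∃ k : ℕ, 0 < k ∧ k < n - 2 ∧
      ω ∈ A (Nat.totient k + Nat.totient (n - k) / 2 + 1) ∧
      ω ∈ Suc A (Nat.totient k + Nat.totient (n - k) / 2 + 1) := by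
  obtain ⟨Φ, hΦ⟩ := (hNT 40 20).choice
  set Ev : ℕ → Finset ℕ → Set Ω := fun n J => {ω | ∀ q ∈ Φ n, ω ∈ A q ↔ q ∈ J} with hEv
  set B : ℕ → Finset ℕ → Set Ω := fun n J =>
    Ev n J ∩ ⋂ q ∈ J, (Reg A (zz n) (WW n) (HH n) n (n ^ 2) q \ Suc A q) with hBdef
  set F : ℕ → Finset (Finset ℕ) := fun n => (Φ n).powerset.filter (fun J => LL n ^ 27 ≤ J.card) with hF
  have hEvm : ∀ᶠ n : ℕ in atTop, ∀ J ∈ F n, MeasurableSet[ℱ (n + 1)] (Ev n J) := by
    filter_upwards [hΦ] with n hn J hJ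
    have e1 : Ev n J = ⋂ q ∈ Φ n, {ω | ω ∈ A q ↔ q ∈ J} := by
      ext ω
      simp only [hEv, Set.mem_ofPred_eq, mem_iInter]
    rw [e1]
    apply Finset.measurableSet_biInter
    intro q hq
    have h1 := hn.2.1 q hq
    by_cases hqJ : q ∈ J
    · have : {ω | ω ∈ A q ↔ q ∈ J} = A q := by ext ω; simp [hqJ]
      rw [this]
      exact ℱ.mono h1.2.1 _ (hA q)
    · have : {ω | ω ∈ A q ↔ q ∈ J} = (A q)ᶜ := by ext ω; simp [hqJ]
      rw [this]
      exact (ℱ.mono h1.2.1 _ (hA q)).compl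
  have hdisj : ∀ n, ∀ J ∈ F n, ∀ J' ∈ F n, J ≠ J' → Disjoint (Ev n J) (Ev n J') := by
    intro n J hJ J' hJ' hne
    rw [Set.disjoint_left]
    intro ω h1 h2
    apply hne
    rw [hF, Finset.mem_filter, Finset.mem_powerset] at hJ hJ'
    ext q
    constructor
    · intro hq
      exact (h2 q (hJ.1 hq)).1 ((h1 q (hJ.1 hq)).2 hq)
    · intro hq
      exact (h1 q (hJ'.1 hq)).1 ((h2 q (hJ'.1 hq)).2 hq)
  have hmeas : ∀ᶠ n : ℕ in atTop, μ.real (⋃ J ∈ F n, B n J) ≤ 1 / (n : ℝ) ^ 2 := by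
    filter_upwards [hΦ, hEvm, htr_all (μ := μ) (ℱ := ℱ) hB hA hd, LL_tendsto.eventually_ge_atTop 20,
      ev_poly 20 4 (by norm_num), eventually_ge_atTop 16] with n h1 h2 h3 h4 h5 h6
    have hLr : (20 : ℝ) ≤ LL n := by exact_mod_cast h4
    have hHHn : 4 * HH n ≤ n := by
      have e1 : (HH n : ℝ) = (LL n : ℝ) ^ 20 := by unfold HH; push_cast; rfl
      have e2 : ((4 * HH n : ℕ) : ℝ) ≤ n := by
        push_cast
        rw [e1]
        exact h5
      exact_mod_cast e2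
    have hH1 : 1 ≤ HH n := by
      unfold HH
      exact Nat.one_le_pow _ _ (by omega)
    set r : ℝ := 1 / (LL n : ℝ) ^ 25 with hr
    have hr0 : 0 ≤ r := by positivity
    have hr1 : r ≤ 1 := by
      rw [hr, div_le_one (by positivity)]
      exact one_le_pow₀ (by linarith)
    have hone : ∀ J ∈ F n, μ.real (B n J) ≤ (1 - r) ^ (LL n ^ 27) * μ.real (Ev n J) := by
      intro J hJ
      have hJ' := hJ
      rw [hF, Finset.mem_filter, Finset.mem_powerset] at hJ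
      have g1 := seq_all (μ := μ) (ℱ := ℱ) hA (zz n) (WW n) (HH n) n (n ^ 2) r hr0 hr1 hH1 J
        (fun a ha => by
          have g2 := h1.2.1 a (hJ.1 ha)
          exact h3 a g2.1 g2.2.1)
        (fun q hq => by
          have g2 := h1.2.1 q (hJ.1 hq)
          omega)
        (fun q hq q' hq' hqq => by
          exact h1.2.2 q (hJ.1 hq) q' (hJ.1 hq') hqq)
        (Ev n J) (h2 J hJ')
      refine g1.trans ?_
      apply mul_le_mul_of_nonneg_right _ measureReal_nonneg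
      exact pow_le_pow_of_le_one (by linarith) (by linarith) hJ.2
    have hsum : ∑ J ∈ F n, μ.real (Ev n J) ≤ 1 := by
      rw [← measureReal_biUnion_finset]
      · exact measureReal_le_one
      · intro x hx y hy hxy
        exact hdisj n x hx y hy hxy
      · intro J hJ
        exact ℱ.le _ _ (h2 J hJ)
    calc μ.real (⋃ J ∈ F n, B n J) ≤ ∑ J ∈ F n, μ.real (B n J) := measureReal_biUnion_finset_le _ _
      _ ≤ ∑ J ∈ F n, (1 - r) ^ (LL n ^ 27) * μ.real (Ev n J) := Finset.sum_le_sum hone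
      _ = (1 - r) ^ (LL n ^ 27) * ∑ J ∈ F n, μ.real (Ev n J) := by rw [Finset.mul_sum]
      _ ≤ (1 - r) ^ (LL n ^ 27) * 1 := mul_le_mul_of_nonneg_left hsum (pow_nonneg (by linarith) _)
      _ ≤ (Real.exp (-r)) ^ (LL n ^ 27) := by
          rw [mul_one]
          apply pow_le_pow_left₀ (by linarith)
          have := Real.add_one_le_exp (-r)
          linarith
      _ = Real.exp (-(LL n : ℝ) ^ 2) := by
          rw [← Real.exp_nat_mul]
          congr 1
          rw [hr]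
          push_cast
          field_simp
      _ ≤ Real.exp (-(2 * Real.log n)) := by
          apply Real.exp_le_exp.2
          have := log_le_LL n (by omega)
          nlinarith
      _ = 1 / (n : ℝ) ^ 2 := by
          have hn0 : (0 : ℝ) < n := by exact_mod_cast (by omega : 0 < n)
          rw [Real.exp_neg, show 2 * Real.log (n : ℝ) = Real.log ((n : ℝ) ^ 2) by rw [Real.log_pow]; norm_num,
            Real.exp_log (by positivity), one_div]
  have hbc := bc_real (μ := μ) (s := fun n => ⋃ J ∈ F n, B n J) (c := fun n : ℕ => 1 / (n : ℝ) ^ 2)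
    (Real.summable_one_div_nat_pow.2 (by norm_num)) hmeas
  have hcnt := cnt_all (μ := μ) (ℱ := ℱ) hA hd Φ (by
    filter_upwards [hΦ] with n hn
    exact ⟨hn.1, fun q hq => ⟨(hn.2.1 q hq).1, (hn.2.1 q hq).2.1⟩⟩)
  filter_upwards [hbc, hcnt, reg_all (μ := μ) (ℱ := ℱ) hB hA hd] with ω h1 h2 h3
  filter_upwards [h1, h2, h3, hΦ] with n g1 g2 g3 g4
  set J : Finset ℕ := (Φ n).filter (fun q => ω ∈ A q) with hJ
  have hJc := g2 J (fun q => by rw [hJ, Finset.mem_filter])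
  have hJF : J ∈ F n := by
    rw [hF, Finset.mem_filter, Finset.mem_powerset]
    exact ⟨Finset.filter_subset _ _, hJc⟩
  have hnot : ω ∉ B n J := by
    intro hcon
    apply g1
    simp only [mem_iUnion, exists_prop]
    exact ⟨J, hJF, hcon⟩
  have hEvJ : ω ∈ Ev n J := by
    simp only [hEv, Set.mem_ofPred_eq]
    intro q hq
    rw [hJ, Finset.mem_filter]
    exact ⟨fun h => ⟨hq, h⟩, fun h => h.2⟩
  by_contra hcon
  push Not at hcon
  apply hnot
  refine ⟨hEvJ, ?_⟩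
  simp only [mem_iInter]
  intro q hq
  rw [hJ, Finset.mem_filter] at hq
  obtain ⟨k1, k2, k, k3, k4, k5⟩ := g4.2.1 q hq.1
  refine ⟨g3 q k1 k2, ?_⟩
  have := hcon k k3 k4
  rw [← k5] at this
  exact this hq.2

end Pool.Agent.R494.IX
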