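import Mathlib
import Pool.Agent.R494.IX.Stm
import Pool.Agent.R311.RES.A7

/-! IX-NT: many well spaced values of `φ(k) + φ(n - k) / 2 + 1`, from the bound for smooth numbers. -/

set_option autoImplicit false

open Filter Finset

namespace Pool.Agent.R494.IX

private lemma natlog_le {n : ℕ} (hn : n ≠ 0) : ((Nat.log 2 n : ℕ) : ℝ) ≤ 2 * Real.log n := by
  have h1 : 2 ^ Nat.log 2 n ≤ n := Nat.pow_log_le_self 2 hn
  have h2 : ((2 : ℝ)) ^ Nat.log 2 n ≤ n := by exact_mod_cast h1
  have h3 := Real.log_le_log (by positivity) h2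
  rw [Real.log_pow] at h3
  have h4 := Real.log_two_gt_d9
  have h5 : (0 : ℝ) ≤ (Nat.log 2 n : ℕ) := Nat.cast_nonneg _
  nlinarith

/-- the two numbers `m = P a`, `m' = P' a` of the same kind with the same `2 m - φ(m)` are equal -/
private lemma key {a P P' : ℕ} (hP : P.Prime) (hP' : P'.Prime) (ha : 0 < a)
    (hflag : P ∣ a ↔ P' ∣ a)
    (h : 2 * ((P * a : ℕ) : ℤ) - (Nat.totient (P * a) : ℤ)
      = 2 * ((P' * a : ℕ) : ℤ) - (Nat.totient (P' * a) : ℤ)) : P = P' := by
  have hta : (Nat.totient a : ℤ) ≤ a := by exact_mod_cast Nat.totient_le a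
  have ha' : (0 : ℤ) < a := by exact_mod_cast ha
  have hpos : (0 : ℤ) < 2 * a - Nat.totient a := by linarith
  have hmain : (2 * (a : ℤ) - Nat.totient a) * ((P : ℤ) - P') = 0 := by
    by_cases hd : P ∣ a
    · have hd' : P' ∣ a := hflag.1 hd
      rw [Nat.totient_mul_of_prime_of_dvd hP hd, Nat.totient_mul_of_prime_of_dvd hP' hd'] at h
      push_cast at h
      linear_combination h
    · have hd' : ¬ P' ∣ a := fun h' => hd (hflag.2 h')
      rw [Nat.totient_mul_of_prime_of_not_dvd hP hd,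
        Nat.totient_mul_of_prime_of_not_dvd hP' hd'] at h
      have e1 : ((P - 1 : ℕ) : ℤ) = (P : ℤ) - 1 := by
        have := hP.one_le
        push_cast [this]
        ring
      have e2 : ((P' - 1 : ℕ) : ℤ) = (P' : ℤ) - 1 := by
        have := hP'.one_le
        push_cast [this]
        ring
      push_cast [e1, e2] at h
      linear_combination h
  rcases mul_eq_zero.1 hmain with h1 | h1
  · exact absurd h1 hpos.ne'
  · have : (P : ℤ) = P' := by linarith
    exact_mod_cast this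

theorem nt (hSM : S_SM) : S_NT := by
  classical
  intro C E
  obtain ⟨Y, hY1, hY⟩ := Pool.Agent.R311.RES.primes_interval 1 one_pos le_rfl
  have hlog : Tendsto (fun n : ℕ => Real.log n) atTop atTop :=
    Real.tendsto_log_atTop.comp tendsto_natCast_atTop_atTop
  have hbig : ∀ᶠ n : ℕ in atTop, (3 + 2 ^ (E + 1)) * Real.log n ^ (C + E + 2) ≤ (n : ℝ) := by
    have h1 : (fun x : ℝ => Real.log x ^ (C + E + 2)) =o[atTop] (id : ℝ → ℝ) :=
      Real.isLittleO_pow_log_id_atTop
    have h2 := h1.bound (show (0 : ℝ) < 1 / (3 + 2 ^ (E + 1)) by positivity)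
    have h3 := (tendsto_natCast_atTop_atTop (R := ℝ)).eventually h2
    filter_upwards [h3] with n hn
    simp only [id, Real.norm_eq_abs, Nat.abs_cast] at hn
    have h4 := (le_abs_self _).trans hn
    rw [one_div, inv_mul_eq_div, le_div_iff₀ (by positivity)] at h4
    linarith
  filter_upwards [hSM (C + E + 2) 2, hbig, hlog.eventually_ge_atTop (4 * (2 ^ (E + 1) + 3)),
    (tendsto_natCast_atTop_atTop (R := ℝ)).eventually_ge_atTop (2 * Y), eventually_ge_atTop 100]
    with n hsm hbig hL hnY hn100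
  set L : ℝ := Real.log n with hLdef
  have hn0 : (0 : ℝ) < n := by
    have : 0 < n := by omega
    exact_mod_cast this
  have h2E : (2 : ℝ) ≤ 2 ^ (E + 1) := by
    calc (2 : ℝ) = 2 ^ 1 := by norm_num
      _ ≤ 2 ^ (E + 1) := pow_le_pow_right₀ (by norm_num) (by omega)
  have hL20 : 20 ≤ L := by linarith
  have hL0 : 0 < L := by linarith
  set y : ℝ := L ^ (C + E + 2) with hy
  have hy0 : 0 < y := by positivity
  -- the primes
  set K : Finset ℕ := (Ioc (n / 2) (n - 3)).filter Nat.Prime with hK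
  have hKcard : (n : ℝ) / (4 * L) - 3 ≤ (K.card : ℝ) := by
    have h1 := hY ((n : ℝ) / 2) (by linarith)
    have e1 : ⌊(n : ℝ) / 2⌋₊ = n / 2 := by
      have := Nat.floor_div_natCast (K := ℝ) (n : ℝ) 2
      simpa using this
    have e2 : ⌊((1 : ℝ) + 1) * ((n : ℝ) / 2)⌋₊ = n := by
      rw [show ((1 : ℝ) + 1) * ((n : ℝ) / 2) = (n : ℝ) by ring]
      exact Nat.floor_natCast n
    rw [e1, e2] at h1
    have h2 : (((Ioc (n / 2) n).filter Nat.Prime).card : ℝ) ≤ K.card + 3 := by
      have h3 : ((Ioc (n / 2) n).filter Nat.Prime) ⊆ K ∪ Ioc (n - 3) n := by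
        intro p hp
        rw [mem_filter, mem_Ioc] at hp
        rw [mem_union, hK, mem_filter, mem_Ioc, mem_Ioc]
        by_cases h : p ≤ n - 3
        · exact Or.inl ⟨⟨hp.1.1, h⟩, hp.2⟩
        · exact Or.inr ⟨by omega, hp.1.2⟩
      have h4 := (card_le_card h3).trans (card_union_le _ _)
      rw [Nat.card_Ioc] at h4
      have h5 : n - (n - 3) = 3 := by omega
      rw [h5] at h4
      exact_mod_cast h4
    have hl2 : Real.log ((n : ℝ) / 2) ≤ L := Real.log_le_log (by positivity) (by linarith)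
    have hl3 : 0 < Real.log ((n : ℝ) / 2) := Real.log_pos (by
      have : (100 : ℝ) ≤ n := by exact_mod_cast hn100
      linarith)
    have h6 : (n : ℝ) / 2 / L ≤ (n : ℝ) / 2 / Real.log ((n : ℝ) / 2) :=
      div_le_div_of_nonneg_left (by positivity) hl3 hl2
    have h7 : (n : ℝ) / (4 * L) = (1 - 1 / 2) * 1 * ((n : ℝ) / 2 / L) := by
      field_simp
      ring
    rw [h7]
    have h8 : (1 - 1 / 2 : ℝ) * 1 * ((n : ℝ) / 2 / L) ≤
        (1 - 1 / 2 : ℝ) * 1 * ((n : ℝ) / 2 / Real.log ((n : ℝ) / 2)) := by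
      apply mul_le_mul_of_nonneg_left h6
      norm_num
    linarith
  -- the nonsmooth ones
  set K' : Finset ℕ := K.filter (fun k => ∃ p : ℕ, p.Prime ∧ p ∣ n - k ∧ y < p) with hK'
  have hKK' : (K.card : ℝ) ≤ K'.card + n / L ^ 2 := by
    have h1 : K.card = K'.card +
        (K.filter (fun k => ¬ ∃ p : ℕ, p.Prime ∧ p ∣ n - k ∧ y < p)).card := by
      rw [hK', card_filter_add_card_filter_not]
    have h2 : (K.filter (fun k => ¬ ∃ p : ℕ, p.Prime ∧ p ∣ n - k ∧ y < p)).card ≤
        ({m : ℕ | 1 ≤ m ∧ m ≤ n ∧ ∀ p : ℕ, p.Prime → p ∣ m → (p : ℝ) ≤ L ^ (C + E + 2)}).ncard := by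
      rw [← Set.ncard_coe_finset]
      refine Set.ncard_le_ncard_of_injOn (fun k => n - k) ?_ ?_ ?_
      · intro k hk
        rw [mem_coe, mem_filter, hK, mem_filter, mem_Ioc] at hk
        obtain ⟨⟨⟨hk1, hk2⟩, hk3⟩, hk4⟩ := hk
        refine ⟨by omega, by omega, ?_⟩
        intro p hp hpd
        by_contra hcon
        push Not at hcon
        exact hk4 ⟨p, hp, hpd, hcon⟩
      · intro k hk k' hk' he
        rw [mem_coe, mem_filter, hK, mem_filter, mem_Ioc] at hk hk'
        simp only at he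
        omega
      · apply Set.Finite.subset (Set.finite_Icc 1 n)
        intro m hm
        exact ⟨hm.1, hm.2.1⟩
    have h3 : ((K.filter (fun k => ¬ ∃ p : ℕ, p.Prime ∧ p ∣ n - k ∧ y < p)).card : ℝ) ≤ n / L ^ 2 :=
      le_trans (by exact_mod_cast h2) hsm
    rw [h1]
    push_cast
    linarith
  -- choice of the prime factor
  have hch : ∀ k ∈ K', ∃ p : ℕ, p.Prime ∧ p ∣ n - k ∧ y < p := by
    intro k hk
    exact (mem_filter.1 hk).2
  choose! P hP1 hP2 hP3 using hch
  have hKm : ∀ k ∈ K', n / 2 < k ∧ k ≤ n - 3 ∧ k.Prime := by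
    intro k hk
    have h1 := (mem_filter.1 hk).1
    rw [hK, mem_filter, mem_Ioc] at h1
    exact ⟨h1.1.1, h1.1.2, h1.2⟩
  set qf : ℕ → ℕ := fun k => Nat.totient k + Nat.totient (n - k) / 2 + 1 with hqf
  have hqk : ∀ k ∈ K', qf k = k + Nat.totient (n - k) / 2 := by
    intro k hk
    obtain ⟨-, -, hk3⟩ := hKm k hk
    rw [hqf]
    simp only
    rw [Nat.totient_prime hk3]
    have := hk3.one_le
    omega
  have hq2 : ∀ k ∈ K', 2 * (qf k : ℤ) = 2 * n - (2 * ((n - k : ℕ) : ℤ) - Nat.totient (n - k)) := by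
    intro k hk
    obtain ⟨hk1, hk2, hk3⟩ := hKm k hk
    have h1 : Even (Nat.totient (n - k)) := Nat.totient_even (by omega)
    obtain ⟨t, ht⟩ := h1
    rw [hqk k hk, ht]
    have h2 : (t + t) / 2 = t := by omega
    rw [h2]
    have h3 : ((n - k : ℕ) : ℤ) = n - k := by
      have : k ≤ n := by omega
      push_cast [this]
      ring
    rw [h3]
    push_cast
    ring
  set Q : Finset ℕ := K'.image qf with hQ
  set A : ℕ := ⌊(n : ℝ) / y⌋₊ with hA
  have hinj : K'.card ≤ ((range (A + 1) ×ˢ (univ : Finset Bool)) ×ˢ Q).card := by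
    refine card_le_card_of_injOn
      (fun k => (((n - k) / P k, decide (P k ∣ (n - k) / P k)), qf k)) ?_ ?_
    · intro k hk
      rw [mem_coe] at hk
      rw [mem_coe, mem_product, mem_product]
      refine ⟨⟨?_, mem_univ _⟩, mem_image_of_mem _ hk⟩
      rw [mem_range, Nat.lt_succ_iff]
      apply Nat.le_floor
      rw [le_div_iff₀ hy0]
      have h1 : (n - k) / P k * P k = n - k := Nat.div_mul_cancel (hP2 k hk)
      have h2 : (((n - k) / P k : ℕ) : ℝ) * (P k : ℝ) = ((n - k : ℕ) : ℝ) := by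
        rw [← Nat.cast_mul, h1]
      have h3 : ((n - k : ℕ) : ℝ) ≤ n := by
        exact_mod_cast Nat.sub_le n k
      calc (((n - k) / P k : ℕ) : ℝ) * y ≤ (((n - k) / P k : ℕ) : ℝ) * (P k : ℝ) :=
            mul_le_mul_of_nonneg_left (hP3 k hk).le (Nat.cast_nonneg _)
        _ ≤ n := by rw [h2]; exact h3
    · intro k hk k' hk' he
      rw [mem_coe] at hk hk'
      simp only [Prod.mk.injEq, decide_eq_decide] at he
      obtain ⟨⟨he1, he2⟩, he3⟩ := he
      obtain ⟨hk1, hk2, hk3⟩ := hKm k hk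
      obtain ⟨hk1', hk2', hk3'⟩ := hKm k' hk'
      have h1 : P k * ((n - k) / P k) = n - k := Nat.mul_div_cancel' (hP2 k hk)
      have h1' : P k' * ((n - k') / P k') = n - k' := Nat.mul_div_cancel' (hP2 k' hk')
      rw [← he1] at h1' he2
      have ha : 0 < (n - k) / P k := by
        rcases Nat.eq_zero_or_pos ((n - k) / P k) with h | h
        · rw [h, mul_zero] at h1
          omega
        · exact h
      have h4 := hq2 k hk
      have h5 := hq2 k' hk'
      have h6 : P k = P k' := by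
        apply key (hP1 k hk) (hP1 k' hk') ha he2
        rw [h1, h1']
        rw [he3] at h4
        linarith
      rw [← h6, h1] at h1'
      omega
  have hinj' : (K'.card : ℝ) ≤ 2 * ((n : ℝ) / y + 1) * Q.card := by
    rw [card_product, card_product, card_range, Finset.card_univ, Fintype.card_bool] at hinj
    have h1 : (K'.card : ℝ) ≤ ((A : ℝ) + 1) * 2 * Q.card := by exact_mod_cast hinj
    have h2 : (A : ℝ) ≤ (n : ℝ) / y := Nat.floor_le (by positivity)
    have h3 : ((A : ℝ) + 1) * 2 * Q.card ≤ 2 * ((n : ℝ) / y + 1) * Q.card := by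
      apply mul_le_mul_of_nonneg_right _ (Nat.cast_nonneg _)
      linarith
    linarith
  -- the classes
  set H : ℕ := Nat.log 2 n ^ E with hH
  have hH0 : 0 < H := by
    apply pow_pos
    exact Nat.log_pos (by norm_num) (by omega)
  have hHL : (H : ℝ) ≤ 2 ^ E * L ^ E := by
    rw [hH]
    push_cast
    rw [← mul_pow]
    exact pow_le_pow_left₀ (Nat.cast_nonneg _) (natlog_le (by omega)) E
  obtain ⟨r, hr, hrc⟩ : ∃ r ∈ range H, L ^ C ≤ ((Q.filter (fun q => q % H = r)).card : ℝ) := by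
    by_contra hcon
    push Not at hcon
    have h1 : Q.card = ∑ r ∈ range H, (Q.filter (fun q => q % H = r)).card :=
      card_eq_sum_card_fiberwise (fun q _ => by
        rw [mem_coe, mem_range]
        exact Nat.mod_lt _ hH0)
    have h2 : (Q.card : ℝ) ≤ H * L ^ C := by
      rw [h1]
      push_cast
      calc ∑ r ∈ range H, ((Q.filter (fun q => q % H = r)).card : ℝ) ≤ ∑ r ∈ range H, L ^ C :=
            sum_le_sum (fun r hr => (hcon r hr).le)
        _ = H * L ^ C := by rw [sum_const, card_range, nsmul_eq_mul]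
    have h3 : (Q.card : ℝ) ≤ 2 ^ E * L ^ (C + E) := by
      refine h2.trans ?_
      calc (H : ℝ) * L ^ C ≤ 2 ^ E * L ^ E * L ^ C :=
            mul_le_mul_of_nonneg_right hHL (by positivity)
        _ = 2 ^ E * L ^ (C + E) := by ring
    have h4 : (K'.card : ℝ) ≤ 2 * ((n : ℝ) / y + 1) * (2 ^ E * L ^ (C + E)) :=
      hinj'.trans (mul_le_mul_of_nonneg_left h3 (by positivity))
    have h5 : 2 * ((n : ℝ) / y + 1) * (2 ^ E * L ^ (C + E)) =
        2 ^ (E + 1) * (n / L ^ 2) + 2 ^ (E + 1) * L ^ (C + E) := by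
      rw [hy]
      field_simp
      ring
    rw [h5] at h4
    have h6 : (n : ℝ) / (4 * L) ≤ 3 + n / L ^ 2 + 2 ^ (E + 1) * (n / L ^ 2) +
        2 ^ (E + 1) * L ^ (C + E) := by linarith
    have h7 : (3 + 2 ^ (E + 1) * L ^ (C + E)) * L ^ 2 ≤ n := by
      have h8 : L ^ 2 ≤ L ^ (C + E + 2) := pow_le_pow_right₀ (by linarith) (by omega)
      calc (3 + 2 ^ (E + 1) * L ^ (C + E)) * L ^ 2 = 3 * L ^ 2 + 2 ^ (E + 1) * L ^ (C + E + 2) := by
            ring
        _ ≤ 3 * L ^ (C + E + 2) + 2 ^ (E + 1) * L ^ (C + E + 2) := by linarith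
        _ = (3 + 2 ^ (E + 1)) * L ^ (C + E + 2) := by ring
        _ ≤ n := hbig
    have h9 : (3 + 2 ^ (E + 1) * L ^ (C + E)) ≤ n / L ^ 2 := by
      rw [le_div_iff₀ (by positivity)]
      exact h7
    have h10 : (n : ℝ) / (4 * L) = (L / 4) * (n / L ^ 2) := by
      field_simp
    rw [h10] at h6
    have h11 : 0 < (n : ℝ) / L ^ 2 := by positivity
    have h12 : (2 ^ (E + 1) + 3) * ((n : ℝ) / L ^ 2) ≤ (L / 4) * (n / L ^ 2) :=
      mul_le_mul_of_nonneg_right (by linarith) h11.le
    nlinarith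
  refine ⟨Q.filter (fun q => q % H = r), hrc, ?_, ?_⟩
  · intro q hq
    rw [mem_filter, hQ, mem_image] at hq
    obtain ⟨⟨k, hk, rfl⟩, -⟩ := hq
    obtain ⟨hk1, hk2, hk3⟩ := hKm k hk
    have h1 := hqk k hk
    have h2 : Nat.totient (n - k) ≤ n - k := Nat.totient_le _
    refine ⟨by omega, by omega, k, hk3.pos, by omega, rfl⟩
  · intro q hq q' hq' hlt
    rw [mem_filter] at hq hq'
    have h1 := Nat.div_add_mod q H
    have h2 := Nat.div_add_mod q' H
    rw [hq.2] at h1
    rw [hq'.2] at h2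
    have h3 : H * (q / H) < H * (q' / H) := by omega
    have h4 : q / H < q' / H := Nat.lt_of_mul_lt_mul_left h3
    have h5 : H * (q / H + 1) ≤ H * (q' / H) := Nat.mul_le_mul_left _ h4
    rw [mul_add, mul_one] at h5
    omega

end Pool.Agent.R494.IX
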