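import Mathlib
import Pool.Agent.R494.IX.Fin2
import Pool.Agent.R494.IX.NT
import Pool.Agent.R494.IX.BIN

set_option autoImplicit false
set_option linter.unusedSectionVars false

/-! # The final form, given the count of smooth numbers -/

open MeasureTheory Filter Set
open scoped ENNReal Topology

namespace Pool.Agent.R494.IX

open Pool.Agent.R528.RM

variable {Ω : Type} {m0 : MeasurableSpace Ω} {μ : Measure Ω} [IsProbabilityMeasure μ]
  {ℱ : Filtration ℕ m0} {A : ℕ → Set Ω}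

lemma nth_RR {ω : Ω} {q s : ℕ} (h : ω ∈ RR A q s) : Nat.nth (fun m => ω ∈ A m) (q - 1) = s := by
  classical
  obtain ⟨h1, h2⟩ := h
  unfold CC at h2
  rw [Finset.range_add_one, Finset.filter_insert, if_pos h1, Finset.card_insert_of_notMem (by simp)] at h2
  have h3 : Nat.count (fun m => ω ∈ A m) s = q - 1 := by
    rw [Nat.count_eq_card_filter_range]
    omega
  rw [← h3]
  exact Nat.nth_count h1

theorem final (hSM : S_SM) (hA : ∀ n, MeasurableSet[ℱ n] (A n))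
    (hd : ∀ n : ℕ, 2 ≤ n → μ[(A (n + 1)).indicator (fun _ => (1 : ℝ)) | ℱ n] =ᵐ[μ] fun _ => 1 / Real.log (n + 1)) :
    ∀ᵐ ω ∂μ, ∀ᶠ n : ℕ in atTop, ∃ k : ℕ, 0 < k ∧ k < n - 2 ∧
      ∃ q : ℕ, q = Nat.totient k + Nat.totient (n - k) / 2 + 1 ∧ ω ∈ A q ∧
        q + 1 ≤ Nat.nth (fun m => ω ∈ A m) (q - 1) ∧
        ω ∈ A (Nat.nth (fun m => ω ∈ A m) (q - 1) - q - 1) ∧
        ω ∈ A (Nat.nth (fun m => ω ∈ A m) (q - 1) - q + 1) := by
  have hd' : ∀ n : ℕ, 2 ≤ n → ∀ᵐ ω ∂μ, dens μ ℱ A n ω = rC (n + 1) := by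
    intro n hn
    filter_upwards [hd n hn] with ω hω
    unfold dens
    rw [hω]
    unfold rC
    push_cast
    rfl
  filter_upwards [main_law (μ := μ) (ℱ := ℱ) (nt hSM) bin hA hd'] with ω hω
  filter_upwards [hω] with n hn
  obtain ⟨k, hk1, hk2, hk3, s, hs1, hs2, hs3, hs4⟩ := hn
  refine ⟨k, hk1, hk2, _, rfl, hk3, ?_⟩
  rw [nth_RR hs1]
  exact ⟨hs2, hs3, hs4⟩

end Pool.Agent.R494.IX
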