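import Pool.Agent.R494.IX.Stm

/-! IX-SM: the number of smooth numbers (Rankin) -/

set_option autoImplicit false

open Filter

namespace Pool.Agent.R494.IX

namespace SMaux

/-- `m ↦ m ^ (-s)` -/
noncomputable def ff (s : ℝ) : ℕ →* ℝ where
  toFun m := (m : ℝ) ^ (-s)
  map_one' := by simp
  map_mul' a b := by rw [Nat.cast_mul, Real.mul_rpow (Nat.cast_nonneg _) (Nat.cast_nonneg _)]

theorem x_le {s : ℝ} (hs : 1 / 2 ≤ s) {p : ℕ} (hp : 2 ≤ p) : (p : ℝ) ^ (-s) ≤ 3 / 4 := by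
  have h1 : (p : ℝ) ^ (-s) ≤ (2 : ℝ) ^ (-s) :=
    Real.rpow_le_rpow_of_nonpos (by norm_num) (by exact_mod_cast hp) (by linarith)
  have h2 : (2 : ℝ) ^ (-s) ≤ (2 : ℝ) ^ (-(1 / 2 : ℝ)) :=
    Real.rpow_le_rpow_of_exponent_le (by norm_num) (by linarith)
  have h3 : (2 : ℝ) ^ (-(1 / 2 : ℝ)) ≤ 3 / 4 := by
    rw [Real.rpow_neg (by norm_num), ← Real.sqrt_eq_rpow]
    have h4 : (4 / 3 : ℝ) ≤ √2 := Real.le_sqrt_of_sq_le (by norm_num)
    calc (√2)⁻¹ ≤ (4 / 3 : ℝ)⁻¹ := inv_anti₀ (by norm_num) h4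
      _ = 3 / 4 := by norm_num
  linarith

theorem rank {s : ℝ} (hs : 1 / 2 ≤ s) (N n : ℕ) (A : Finset ℕ)
    (hA : ∀ m ∈ A, 1 ≤ m ∧ m ≤ n ∧ m ∈ Nat.smoothNumbers N) :
    (A.card : ℝ) ≤ (n : ℝ) ^ s * ∏ p ∈ Nat.primesBelow N, (1 - (p : ℝ) ^ (-s))⁻¹ := by
  classical
  have hs0 : 0 < s := by linarith
  have key := (EulerProduct.summable_and_hasSum_smoothNumbers_prod_primesBelow_geometric
    (f := ff s) (fun {p} hp => by
      change ‖(p : ℝ) ^ (-s)‖ < 1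
      rw [Real.norm_of_nonneg (Real.rpow_nonneg (Nat.cast_nonneg _) _)]
      linarith [x_le hs hp.two_le]) N).2
  have h1 : ∑ m ∈ A, (m : ℝ) ^ (-s) ≤ ∏ p ∈ Nat.primesBelow N, (1 - (p : ℝ) ^ (-s))⁻¹ := by
    have h2 := sum_le_hasSum (A.subtype (· ∈ Nat.smoothNumbers N))
      (fun m _ => Real.rpow_nonneg (Nat.cast_nonneg _) _) key
    refine le_trans (le_of_eq ?_) h2
    exact (Finset.sum_subtype_of_mem (fun m : ℕ => (m : ℝ) ^ (-s))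
      (fun m hm => (hA m hm).2.2)).symm
  have h3 : ∀ m ∈ A, (1 : ℝ) ≤ (n : ℝ) ^ s * (m : ℝ) ^ (-s) := by
    intro m hm
    have hm1 : (0 : ℝ) < m := by exact_mod_cast (hA m hm).1
    have hmn : (m : ℝ) ≤ n := by exact_mod_cast (hA m hm).2.1
    rw [Real.rpow_neg hm1.le, ← div_eq_mul_inv, one_le_div (Real.rpow_pos_of_pos hm1 _)]
    exact Real.rpow_le_rpow hm1.le hmn hs0.le
  calc (A.card : ℝ) = ∑ m ∈ A, (1 : ℝ) := by simp
    _ ≤ ∑ m ∈ A, (n : ℝ) ^ s * (m : ℝ) ^ (-s) := Finset.sum_le_sum h3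
    _ = (n : ℝ) ^ s * ∑ m ∈ A, (m : ℝ) ^ (-s) := by rw [Finset.mul_sum]
    _ ≤ _ := by gcongr

theorem prod_le {s : ℝ} (hs : 1 / 2 ≤ s) (hs1 : s ≤ 1) (M : ℕ) :
    ∏ p ∈ Nat.primesBelow (M + 1), (1 - (p : ℝ) ^ (-s))⁻¹ ≤
      Real.exp (4 * ((M : ℝ) ^ (1 - s) * (1 + Real.log M))) := by
  have h1 : ∀ p ∈ Nat.primesBelow (M + 1), (1 - (p : ℝ) ^ (-s))⁻¹ ≤
      Real.exp (4 * (p : ℝ) ^ (-s)) := by
    intro p hp
    have hx := x_le hs (Nat.mem_primesBelow.1 hp).2.two_le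
    have hx0 : 0 ≤ (p : ℝ) ^ (-s) := Real.rpow_nonneg (Nat.cast_nonneg _) _
    generalize (p : ℝ) ^ (-s) = x at *
    have h2 : (1 - x)⁻¹ ≤ 1 + 4 * x := by
      rw [inv_le_iff_one_le_mul₀ (by linarith)]
      nlinarith
    linarith [Real.add_one_le_exp (4 * x)]
  have h2 : ∀ p ∈ Nat.primesBelow (M + 1), 0 ≤ (1 - (p : ℝ) ^ (-s))⁻¹ := by
    intro p hp
    have hx := x_le hs (Nat.mem_primesBelow.1 hp).2.two_le
    exact inv_nonneg.2 (by linarith)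
  refine (Finset.prod_le_prod h2 h1).trans ?_
  rw [← Real.exp_sum, Real.exp_le_exp, ← Finset.mul_sum]
  refine mul_le_mul_of_nonneg_left ?_ (by norm_num)
  have h3 : ∑ p ∈ Nat.primesBelow (M + 1), (p : ℝ) ^ (-s) ≤ ∑ m ∈ Finset.Icc 1 M, (m : ℝ) ^ (-s) := by
    refine Finset.sum_le_sum_of_subset_of_nonneg ?_ fun m _ _ =>
      Real.rpow_nonneg (Nat.cast_nonneg _) _
    intro p hp
    have h4 := Nat.mem_primesBelow.1 hp
    exact Finset.mem_Icc.2 ⟨h4.2.one_lt.le, Nat.lt_succ_iff.1 h4.1⟩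
  refine h3.trans ?_
  have h4 : ∀ m ∈ Finset.Icc 1 M, (m : ℝ) ^ (-s) ≤ (M : ℝ) ^ (1 - s) * (m : ℝ)⁻¹ := by
    intro m hm
    rw [Finset.mem_Icc] at hm
    have hm0 : (0 : ℝ) < m := by exact_mod_cast hm.1
    have hmM : (m : ℝ) ≤ M := by exact_mod_cast hm.2
    have h5 : (m : ℝ) ^ (-s) = (m : ℝ) ^ (1 - s) * (m : ℝ)⁻¹ := by
      rw [← Real.rpow_neg_one, ← Real.rpow_add hm0]
      congr 1
      ring
    rw [h5]
    refine mul_le_mul_of_nonneg_right ?_ (inv_nonneg.2 hm0.le)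
    exact Real.rpow_le_rpow hm0.le hmM (by linarith)
  refine (Finset.sum_le_sum h4).trans ?_
  rw [← Finset.mul_sum]
  refine mul_le_mul_of_nonneg_left ?_ (Real.rpow_nonneg (Nat.cast_nonneg _) _)
  have h6 := harmonic_le_one_add_log M
  rw [harmonic_eq_sum_Icc] at h6
  push_cast at h6
  exact h6

theorem ev (C D : ℕ) : ∀ᶠ n : ℕ in atTop, 1 ≤ Real.log n ∧
    Real.log (Real.log n) ≤ Real.log n ^ (1 / 4 : ℝ) ∧
    2 * ((C : ℝ) + 1) * (4 + 4 * ((C : ℝ) + 1) + D) ≤ Real.log n ^ (1 / 4 : ℝ) := by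
  have hL : Tendsto (fun n : ℕ => Real.log n) atTop atTop :=
    Real.tendsto_log_atTop.comp tendsto_natCast_atTop_atTop
  have h1 : ∀ᶠ L : ℝ in atTop, 1 ≤ L := eventually_ge_atTop 1
  have h2 : ∀ᶠ L : ℝ in atTop, Real.log L ≤ L ^ (1 / 4 : ℝ) := by
    have h := (isLittleO_log_rpow_atTop (show (0 : ℝ) < 1 / 4 by norm_num)).bound
      (show (0 : ℝ) < 1 by norm_num)
    filter_upwards [h, h1] with L hL1 hL2
    rw [one_mul, Real.norm_of_nonneg (Real.log_nonneg hL2),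
      Real.norm_of_nonneg (Real.rpow_nonneg (by linarith) _)] at hL1
    exact hL1
  have h3 : ∀ᶠ L : ℝ in atTop, 2 * ((C : ℝ) + 1) * (4 + 4 * ((C : ℝ) + 1) + D) ≤
      L ^ (1 / 4 : ℝ) :=
    (tendsto_rpow_atTop (show (0 : ℝ) < 1 / 4 by norm_num)).eventually_ge_atTop _
  exact hL.eventually (h1.and (h2.and h3))

end SMaux

open SMaux in
theorem sm : S_SM := by
  intro C D
  classical
  filter_upwards [ev C D, eventually_ge_atTop 1] with n hn hn1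
  obtain ⟨hL1, hL2, hL3⟩ := hn
  have hn0 : (0 : ℝ) < n := by exact_mod_cast hn1
  obtain ⟨L, hL⟩ : ∃ L, L = Real.log n := ⟨_, rfl⟩
  rw [← hL] at hL1 hL2 hL3 ⊢
  have hL0 : 0 < L := by linarith
  obtain ⟨w, hw⟩ : ∃ w : ℝ, w = L ^ (1 / 4 : ℝ) := ⟨_, rfl⟩
  rw [← hw] at hL2 hL3
  have hw1 : 1 ≤ w := by rw [hw]; exact Real.one_le_rpow hL1 (by norm_num)
  have hw4 : w ^ 4 = L := by
    rw [hw, ← Real.rpow_natCast, ← Real.rpow_mul hL0.le]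
    norm_num
  have hw2 : L ^ (1 / 2 : ℝ) = w ^ 2 := by
    rw [hw, ← Real.rpow_natCast, ← Real.rpow_mul hL0.le]
    norm_num
  obtain ⟨c, hc⟩ : ∃ c : ℝ, c = (C : ℝ) + 1 := ⟨_, rfl⟩
  rw [← hc] at hL3
  have hc1 : 1 ≤ c := by rw [hc]; have : (0 : ℝ) ≤ C := Nat.cast_nonneg C; linarith
  obtain ⟨s, hs⟩ : ∃ s : ℝ, s = 1 - 1 / (2 * c) := ⟨_, rfl⟩
  have hinv : 1 / (2 * c) ≤ 1 / 2 := by
    apply one_div_le_one_div_of_le (by norm_num)
    linarith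
  have hinv0 : 0 < 1 / (2 * c) := by positivity
  have hs1 : 1 / 2 ≤ s := by rw [hs]; linarith
  have hs2 : s ≤ 1 := by rw [hs]; linarith
  obtain ⟨M, hM⟩ : ∃ M : ℕ, M = ⌊L ^ (C + 1)⌋₊ := ⟨_, rfl⟩
  have hLC : (1 : ℝ) ≤ L ^ (C + 1) := one_le_pow₀ hL1
  have hM1 : 1 ≤ M := by rw [hM]; exact Nat.le_floor (by simpa using hLC)
  have hM2 : (M : ℝ) ≤ L ^ (C + 1) := by rw [hM]; exact Nat.floor_le (by positivity)
  have hM0 : (0 : ℝ) < M := by exact_mod_cast hM1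
  set A : Finset ℕ := (Finset.Icc 1 n).filter
    (fun m => ∀ p : ℕ, p.Prime → p ∣ m → (p : ℝ) ≤ L ^ C) with hA
  have hset : {m : ℕ | 1 ≤ m ∧ m ≤ n ∧ ∀ p : ℕ, p.Prime → p ∣ m → (p : ℝ) ≤ L ^ C} = ↑A := by
    ext m
    rw [hA, Finset.mem_coe, Finset.mem_filter, Finset.mem_Icc, and_assoc]
    rfl
  rw [hset, Set.ncard_coe_finset]
  have hAs : ∀ m ∈ A, 1 ≤ m ∧ m ≤ n ∧ m ∈ Nat.smoothNumbers (M + 1) := by
    intro m hm
    rw [hA, Finset.mem_filter, Finset.mem_Icc] at hm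
    refine ⟨hm.1.1, hm.1.2, Nat.mem_smoothNumbers'.2 fun p hp hpm => ?_⟩
    have h1 := hm.2 p hp hpm
    have h2 : (p : ℝ) ≤ L ^ (C + 1) := h1.trans (pow_le_pow_right₀ hL1 (Nat.le_succ C))
    rw [hM]
    exact Nat.lt_succ_of_le (Nat.le_floor h2)
  have hr := rank hs1 (M + 1) n A hAs
  have hp := prod_le hs1 hs2 M
  have e1 : (M : ℝ) ^ (1 - s) ≤ w ^ 2 := by
    have h1 : (M : ℝ) ^ (1 - s) ≤ (L ^ (C + 1)) ^ (1 - s) :=
      Real.rpow_le_rpow hM0.le hM2 (by linarith)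
    have h2 : (L ^ (C + 1)) ^ (1 - s) = w ^ 2 := by
      rw [← Real.rpow_natCast L (C + 1), ← Real.rpow_mul hL0.le, ← hw2]
      congr 1
      rw [hs]
      push_cast
      rw [← hc]
      field_simp
      ring
    rw [h2] at h1
    exact h1
  have e2 : Real.log M ≤ c * w := by
    have h1 : Real.log M ≤ Real.log (L ^ (C + 1)) := Real.log_le_log hM0 hM2
    rw [Real.log_pow] at h1
    push_cast at h1
    rw [← hc] at h1
    refine h1.trans ?_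
    exact mul_le_mul_of_nonneg_left hL2 (by linarith)
  have e3 : (n : ℝ) ^ s = n * Real.exp (-(L / (2 * c))) := by
    have h1 : (n : ℝ) ^ s = (n : ℝ) ^ (1 : ℝ) * (n : ℝ) ^ (-(1 / (2 * c))) := by
      have hs' : (1 : ℝ) + -(1 / (2 * c)) = s := by linarith
      rw [← Real.rpow_add hn0, hs']
    rw [h1, Real.rpow_one, Real.rpow_def_of_pos hn0, ← hL]
    congr 2
    ring
  have e4 : Real.exp (4 * ((M : ℝ) ^ (1 - s) * (1 + Real.log M))) ≤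
      Real.exp (4 * (w ^ 2 * (1 + c * w))) := by
    rw [Real.exp_le_exp]
    have h1 : 0 ≤ Real.log M := Real.log_nonneg (by exact_mod_cast hM1)
    gcongr
  have e5 : (L ^ D)⁻¹ = Real.exp (-(D * Real.log L)) := by
    rw [Real.exp_neg, ← Real.log_pow, Real.exp_log (by positivity)]
  rw [div_eq_mul_inv, e5]
  calc (A.card : ℝ) ≤ (n : ℝ) ^ s * ∏ p ∈ Nat.primesBelow (M + 1), (1 - (p : ℝ) ^ (-s))⁻¹ := hr
    _ ≤ (n * Real.exp (-(L / (2 * c)))) * Real.exp (4 * (w ^ 2 * (1 + c * w))) := by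
      rw [← e3]
      exact mul_le_mul_of_nonneg_left (hp.trans e4) (Real.rpow_nonneg hn0.le _)
    _ = n * Real.exp (-(L / (2 * c)) + 4 * (w ^ 2 * (1 + c * w))) := by
      rw [mul_assoc, ← Real.exp_add]
    _ ≤ n * Real.exp (-(D * Real.log L)) := by
      refine mul_le_mul_of_nonneg_left ?_ hn0.le
      rw [Real.exp_le_exp]
      have h1 : (D : ℝ) * Real.log L ≤ D * w ^ 3 := by
        refine mul_le_mul_of_nonneg_left (hL2.trans ?_) (Nat.cast_nonneg D)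
        nlinarith [sq_nonneg (w - 1), sq_nonneg w]
      have h2 : 4 * (w ^ 2 * (1 + c * w)) ≤ (4 + 4 * c) * w ^ 3 := by
        have h3 : w ^ 2 ≤ w ^ 3 := pow_le_pow_right₀ hw1 (by norm_num)
        nlinarith
      have h3 : (4 + 4 * c + D) * w ^ 3 ≤ L / (2 * c) := by
        rw [le_div_iff₀ (by positivity), ← hw4]
        have h4 : 0 ≤ w ^ 3 := by positivity
        calc (4 + 4 * c + D) * w ^ 3 * (2 * c) = (2 * c * (4 + 4 * c + D)) * w ^ 3 := by ring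
          _ ≤ w * w ^ 3 := mul_le_mul_of_nonneg_right hL3 h4
          _ = w ^ 4 := by ring
      linarith

end Pool.Agent.R494.IX
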