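import Mathlib
import Pool.Agent.R494.IX.Stm

set_option autoImplicit false

/-! # Counting smooth numbers by the method of Rankin -/

open Filter

namespace Pool.Agent.R494.IX

/-- the map `m ↦ m ^ (-σ)` -/
noncomputable def fs (σ : ℝ) : ℕ →* ℝ where
  toFun := fun m => (m : ℝ) ^ (-σ)
  map_one' := by simp
  map_mul' := fun a b => by
    push_cast
    exact Real.mul_rpow (Nat.cast_nonneg a) (Nat.cast_nonneg b)

lemma fs_apply (σ : ℝ) (m : ℕ) : fs σ m = (m : ℝ) ^ (-σ) := rfl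

lemma fs_prime {σ : ℝ} (hσ : 1 / 2 ≤ σ) {p : ℕ} (hp : 2 ≤ p) : fs σ p ≤ 3 / 4 := by
  rw [fs_apply]
  have h2 : (2 : ℝ) ≤ p := by exact_mod_cast hp
  have h1 : (p : ℝ) ^ (-σ) ≤ (2 : ℝ) ^ (-(1 / 2 : ℝ)) := by
    calc (p : ℝ) ^ (-σ) ≤ (p : ℝ) ^ (-(1 / 2 : ℝ)) := Real.rpow_le_rpow_of_exponent_le (by linarith) (by linarith)
      _ ≤ (2 : ℝ) ^ (-(1 / 2 : ℝ)) := Real.rpow_le_rpow_of_nonpos (by norm_num) h2 (by norm_num)
  have h3 : (2 : ℝ) ^ (-(1 / 2 : ℝ)) ≤ 3 / 4 := by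
    rw [Real.rpow_neg (by norm_num), ← Real.sqrt_eq_rpow]
    have h4 : (4 / 3 : ℝ) ≤ √2 := by
      apply Real.le_sqrt_of_sq_le
      norm_num
    rw [inv_le_comm₀ (by positivity) (by norm_num)]
    linarith
  linarith

lemma rankin (σ : ℝ) (hσ : 1 / 2 ≤ σ) (n N : ℕ) (S : Finset ℕ)
    (hS : ∀ m ∈ S, 1 ≤ m ∧ m ≤ n ∧ ∀ p : ℕ, p.Prime → p ∣ m → p < N) :
    (S.card : ℝ) ≤ (n : ℝ) ^ σ * Real.exp (4 * ∑ p ∈ Nat.primesBelow N, (p : ℝ) ^ (-σ)) := by
  have hnn : ∀ m : ℕ, 0 ≤ fs σ m := fun m => by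
    rw [fs_apply]; exact Real.rpow_nonneg (Nat.cast_nonneg _) _
  obtain ⟨-, hh⟩ := EulerProduct.summable_and_hasSum_smoothNumbers_prod_primesBelow_geometric (f := fs σ)
    (fun {p} hp => by
      rw [Real.norm_eq_abs, abs_of_nonneg (hnn p)]
      have := fs_prime hσ hp.two_le
      linarith) N
  have hh' := (hasSum_subtype_iff_indicator (f := fun m : ℕ => fs σ m) (s := N.smoothNumbers)).1 hh
  have h1 := sum_le_hasSum S (fun i _ => Set.indicator_nonneg (fun m _ => hnn m) i) hh'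
  have h2 : ∑ m ∈ S, fs σ m ≤ ∏ p ∈ N.primesBelow, (1 - fs σ p)⁻¹ := by
    refine le_trans (le_of_eq ?_) h1
    refine Finset.sum_congr rfl fun m hm => ?_
    rw [Set.indicator_of_mem]
    rw [Nat.mem_smoothNumbers']
    exact (hS m hm).2.2
  have h3 : ∏ p ∈ N.primesBelow, (1 - fs σ p)⁻¹ ≤ ∏ p ∈ N.primesBelow, Real.exp (4 * (p : ℝ) ^ (-σ)) := by
    apply Finset.prod_le_prod
    · intro p hp
      have := fs_prime hσ (Nat.prime_of_mem_primesBelow hp).two_le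
      apply inv_nonneg.2
      linarith
    · intro p hp
      have g1 := fs_prime hσ (Nat.prime_of_mem_primesBelow hp).two_le
      have g2 := hnn p
      rw [← fs_apply]
      set x := fs σ p
      have g3 : 0 < 1 - x := by linarith
      have g4 : (1 - x)⁻¹ = x / (1 - x) + 1 := by field_simp; ring
      rw [g4]
      refine (Real.add_one_le_exp _).trans (Real.exp_le_exp.2 ?_)
      rw [div_le_iff₀ g3]
      nlinarith
  rw [← Real.exp_sum, ← Finset.mul_sum] at h3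
  have h4 : ∀ m ∈ S, (1 : ℝ) ≤ (n : ℝ) ^ σ * fs σ m := by
    intro m hm
    obtain ⟨a1, a2, -⟩ := hS m hm
    have m0 : (0 : ℝ) < m := by exact_mod_cast a1
    have mn : (m : ℝ) ≤ n := by exact_mod_cast a2
    rw [fs_apply, Real.rpow_neg m0.le, ← div_eq_mul_inv, one_le_div (Real.rpow_pos_of_pos m0 _)]
    exact Real.rpow_le_rpow m0.le mn (by linarith)
  calc (S.card : ℝ) = ∑ m ∈ S, (1 : ℝ) := by simp
    _ ≤ ∑ m ∈ S, (n : ℝ) ^ σ * fs σ m := Finset.sum_le_sum h4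
    _ = (n : ℝ) ^ σ * ∑ m ∈ S, fs σ m := by rw [Finset.mul_sum]
    _ ≤ _ := mul_le_mul_of_nonneg_left (h2.trans h3) (Real.rpow_nonneg (Nat.cast_nonneg _) _)

lemma psum (σ y : ℝ) (hσ : σ ≤ 1) (hy : 1 ≤ y) :
    ∑ p ∈ Nat.primesBelow (⌊y⌋₊ + 1), (p : ℝ) ^ (-σ) ≤ y ^ (1 - σ) * (1 + Real.log y) := by
  have h1 : ∑ p ∈ Nat.primesBelow (⌊y⌋₊ + 1), (p : ℝ) ^ (-σ) ≤
      ∑ k ∈ Finset.Icc 1 ⌊y⌋₊, y ^ (1 - σ) * (k : ℝ)⁻¹ := by
    calc ∑ p ∈ Nat.primesBelow (⌊y⌋₊ + 1), (p : ℝ) ^ (-σ) ≤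
        ∑ p ∈ Nat.primesBelow (⌊y⌋₊ + 1), y ^ (1 - σ) * (p : ℝ)⁻¹ := by
          apply Finset.sum_le_sum
          intro p hp
          have hp1 := Nat.prime_of_mem_primesBelow hp
          have hp2 := Nat.lt_of_mem_primesBelow hp
          have p0 : (0 : ℝ) < p := by exact_mod_cast hp1.pos
          have py : (p : ℝ) ≤ y := (Nat.le_floor_iff (by linarith)).1 (by omega)
          have e1 : (p : ℝ) ^ (-σ) = (p : ℝ) ^ (1 - σ) * (p : ℝ)⁻¹ := by
            rw [← Real.rpow_neg_one, ← Real.rpow_add p0]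
            congr 1
            ring
          rw [e1]
          apply mul_le_mul_of_nonneg_right _ (by positivity)
          exact Real.rpow_le_rpow p0.le py (by linarith)
      _ ≤ _ := by
          apply Finset.sum_le_sum_of_subset_of_nonneg
          · intro p hp
            have hp1 := Nat.prime_of_mem_primesBelow hp
            have hp2 := Nat.lt_of_mem_primesBelow hp
            rw [Finset.mem_Icc]
            exact ⟨hp1.pos, by omega⟩
          · intro k _ _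
            have : 0 ≤ y ^ (1 - σ) := Real.rpow_nonneg (by linarith) _
            positivity
  rw [← Finset.mul_sum] at h1
  refine h1.trans (mul_le_mul_of_nonneg_left ?_ (Real.rpow_nonneg (by linarith) _))
  have h2 := harmonic_floor_le_one_add_log y hy
  rw [harmonic_eq_sum_Icc] at h2
  push_cast at h2
  exact h2

theorem sm : S_SM := by
  classical
  intro C D
  set δ : ℝ := 1 / (2 * ((C : ℝ) + 1)) with hδ
  have hC0 : (0 : ℝ) ≤ C := Nat.cast_nonneg C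
  have hD0 : (0 : ℝ) ≤ D := Nat.cast_nonneg D
  have hδ0 : 0 < δ := by positivity
  have hδ1 : δ ≤ 1 / 2 := by
    rw [hδ]
    apply one_div_le_one_div_of_le (by norm_num)
    linarith
  have hCδ : C * δ ≤ 1 / 2 := by
    rw [hδ, mul_one_div, div_le_div_iff₀ (by positivity) (by norm_num)]
    linarith
  have hlog : Tendsto (fun n : ℕ => Real.log (n : ℝ)) atTop atTop :=
    Real.tendsto_log_atTop.comp tendsto_natCast_atTop_atTop
  have hu : Tendsto (fun n : ℕ => (Real.log (n : ℝ)) ^ (1 / 4 : ℝ)) atTop atTop :=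
    (tendsto_rpow_atTop (by norm_num)).comp hlog
  filter_upwards [hlog.eventually_ge_atTop 1, hu.eventually_ge_atTop ((4 + 16 * C + 4 * D) / δ + 1),
    eventually_ge_atTop 1] with n h1 h2 h3
  set l : ℝ := Real.log (n : ℝ) with hl
  set u : ℝ := l ^ (1 / 4 : ℝ) with hudef
  have hn0 : (0 : ℝ) < n := by exact_mod_cast h3
  have hl0 : 0 < l := by linarith
  have hu1 : 1 ≤ u := by
    have : 0 ≤ (4 + 16 * (C : ℝ) + 4 * D) / δ := by positivity
    linarith
  have hu4 : l = u ^ 4 := by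
    rw [hudef, ← Real.rpow_natCast, ← Real.rpow_mul hl0.le]
    norm_num
  have hlu : Real.log l ≤ 4 * u := by
    rw [hu4, Real.log_pow]
    push_cast
    have := Real.log_le_sub_one_of_pos (show 0 < u by linarith)
    linarith
  have hll0 : 0 ≤ Real.log l := Real.log_nonneg h1
  set y : ℝ := l ^ C with hy
  have hy1 : 1 ≤ y := one_le_pow₀ h1
  set T : Set ℕ := {m : ℕ | 1 ≤ m ∧ m ≤ n ∧ ∀ p : ℕ, p.Prime → p ∣ m → (p : ℝ) ≤ y} with hT
  have hTf : T.Finite := (Set.finite_Iic n).subset fun m hm => hm.2.1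
  set S : Finset ℕ := hTf.toFinset with hSdef
  have hcard : T.ncard = S.card := Set.ncard_eq_toFinset_card T hTf
  have hr := rankin (1 - δ) (by linarith) n (⌊y⌋₊ + 1) S (by
    intro m hm
    rw [hSdef, Set.Finite.mem_toFinset] at hm
    refine ⟨hm.1, hm.2.1, fun p hp hpm => ?_⟩
    have := Nat.le_floor (hm.2.2 p hp hpm)
    omega)
  have hps := psum (1 - δ) y (by linarith) hy1
  rw [show 1 - (1 - δ) = δ by ring] at hps
  have hyδ : y ^ δ ≤ u ^ 2 := by
    have e1 : u ^ 2 = l ^ (1 / 2 : ℝ) := by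
      rw [hudef, ← Real.rpow_natCast, ← Real.rpow_mul hl0.le]
      norm_num
    rw [e1, hy, ← Real.rpow_natCast, ← Real.rpow_mul hl0.le]
    exact Real.rpow_le_rpow_of_exponent_le h1 hCδ
  have hly : Real.log y = C * Real.log l := by rw [hy, Real.log_pow]
  have hlC : Real.log y ≤ 4 * C * u := by
    rw [hly]
    nlinarith
  have hly0 : 0 ≤ Real.log y := Real.log_nonneg hy1
  have hps2 : ∑ p ∈ Nat.primesBelow (⌊y⌋₊ + 1), (p : ℝ) ^ (-(1 - δ)) ≤ u ^ 2 * (1 + 4 * C * u) := by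
    refine hps.trans ?_
    apply mul_le_mul hyδ (by linarith) (by linarith) (by positivity)
  rw [hcard]
  refine hr.trans ?_
  rw [le_div_iff₀ (by positivity)]
  have e1 : (n : ℝ) ^ (1 - δ) = n * Real.exp (-(δ * l)) := by
    rw [Real.rpow_sub hn0, Real.rpow_one, Real.rpow_def_of_pos hn0, Real.exp_neg, ← div_eq_mul_inv, ← hl, mul_comm l δ]
  have e2 : l ^ D = Real.exp (D * Real.log l) := by
    rw [Real.exp_nat_mul, Real.exp_log hl0]
  rw [e1, e2, mul_assoc, mul_assoc, ← Real.exp_add, ← Real.exp_add]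
  apply mul_le_of_le_one_right hn0.le
  rw [Real.exp_le_one_iff]
  have hB : (4 + 16 * (C : ℝ) + 4 * D) ≤ δ * u := by
    have g1 : (4 + 16 * (C : ℝ) + 4 * D) / δ ≤ u := by linarith
    rw [div_le_iff₀ hδ0] at g1
    linarith
  have hu3 : 0 ≤ u ^ 3 := by positivity
  have k1 : u ≤ u ^ 3 := by
    calc u = u ^ 1 := (pow_one u).symm
      _ ≤ u ^ 3 := pow_le_pow_right₀ hu1 (by norm_num)
  have k2 : u ^ 2 ≤ u ^ 3 := pow_le_pow_right₀ hu1 (by norm_num)
  have k3 : (4 + 16 * (C : ℝ) + 4 * D) * u ^ 3 ≤ δ * l := by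
    rw [hu4]
    calc (4 + 16 * (C : ℝ) + 4 * D) * u ^ 3 ≤ (δ * u) * u ^ 3 := mul_le_mul_of_nonneg_right hB hu3
      _ = δ * u ^ 4 := by ring
  have k4 : 4 * ∑ p ∈ Nat.primesBelow (⌊y⌋₊ + 1), (p : ℝ) ^ (-(1 - δ)) ≤ 4 * u ^ 3 + 16 * C * u ^ 3 := by
    have : u ^ 2 * (1 + 4 * C * u) = u ^ 2 + 4 * C * u ^ 3 := by ring
    rw [this] at hps2
    linarith
  have k5 : D * Real.log l ≤ 4 * D * u ^ 3 := by
    calc D * Real.log l ≤ D * (4 * u) := mul_le_mul_of_nonneg_left hlu hD0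
      _ ≤ D * (4 * u ^ 3) := by gcongr
      _ = _ := by ring
  nlinarith

end Pool.Agent.R494.IX
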